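import Pool.Agent.E8helper37.RX.Pat

/-!
# Almost all expressions contain a given fringe pattern
-/

set_option autoImplicit false

namespace Pool.Agent.E8helper37.RX

open Finset Filter Topology

theorem conv_le (a : ℕ → ℝ) (ha : ∀ n, 0 ≤ a n) (z : ℝ) (hz : 0 ≤ z) (N : ℕ) :
    ∑ n ∈ range N, (∑ p ∈ antidiagonal n, a p.1 * a p.2) * z ^ n ≤
      (∑ n ∈ range N, a n * z ^ n) ^ 2 := by
  have h1 : ∀ n ∈ range N, (∑ p ∈ antidiagonal n, a p.1 * a p.2) * z ^ n =
      ∑ k ∈ range (n + 1), (a k * z ^ k) * (a (n - k) * z ^ (n - k)) := by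
    intro n _
    rw [Finset.Nat.sum_antidiagonal_eq_sum_range_succ (fun i j => a i * a j), Finset.sum_mul]
    refine Finset.sum_congr rfl fun k hk => ?_
    rw [Finset.mem_range] at hk
    have h2 : z ^ n = z ^ k * z ^ (n - k) := by
      rw [← pow_add]; congr 1; omega
    rw [h2]; ring
  rw [Finset.sum_congr rfl h1,
    Finset.sum_range_diag_flip N (fun k j => (a k * z ^ k) * (a j * z ^ j)), sq, Finset.sum_mul_sum]
  refine Finset.sum_le_sum fun k _ => ?_
  apply Finset.sum_le_sum_of_subset_of_nonneg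
  · exact Finset.range_subset_range.2 (Nat.sub_le _ _)
  · intro j _ _
    have := ha k
    have := ha j
    positivity

section

variable {σ ο : Type} [Fintype σ] [Fintype ο] [DecidableEq σ] [DecidableEq ο]

theorem Tn_nonneg (n : ℕ) : 0 ≤ Tn σ ο n := by unfold Tn; positivity

theorem Tn_eq (n : ℕ) : Tn σ ο n =
    (Fintype.card σ : ℝ) ^ (n + 1) * (Fintype.card ο : ℝ) ^ n * catalan n := by
  induction n using Nat.strong_induction_on with
  | _ n ih =>
  rcases n with _ | n
  · rw [Tn_zero]; simp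
  · rw [Tn_succ, catalan_succ', Nat.cast_sum, Finset.mul_sum, Finset.mul_sum]
    refine Finset.sum_congr rfl fun p hp => ?_
    rw [HasAntidiagonal.mem_antidiagonal] at hp
    rw [ih p.1 (by omega), ih p.2 (by omega), ← hp, Nat.cast_mul]
    ring

theorem catalan_ge (n : ℕ) : (4 : ℝ) ^ n ≤ 2 * ((n : ℝ) + 1) ^ 2 * catalan n := by
  rcases Nat.eq_zero_or_pos n with rfl | hn
  · norm_num [catalan_zero]
  · have h1 := Nat.four_pow_le_two_mul_self_mul_centralBinom n hn
    have h2 := succ_mul_catalan_eq_centralBinom n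
    rw [← h2] at h1
    have h3 : (4 : ℝ) ^ n ≤ 2 * n * ((n + 1) * catalan n) := by exact_mod_cast h1
    have h4 : (0 : ℝ) ≤ catalan n := by positivity
    nlinarith [mul_nonneg (show (0 : ℝ) ≤ n + 1 by positivity) h4]

theorem aux_id {x y : ℝ} (hx : 0 < x) (hy : 0 < y) (s u w : ℝ) (n : ℕ) :
    2 * s * (1 / y) ^ n * (2 * u * w) = (4 * u * (x / y) ^ n) * (s * (1 / x) ^ n * w) := by
  have h1 : (x / y) ^ n * (1 / x) ^ n = (1 / y) ^ n := by
    rw [← mul_pow]
    congr 1
    field_simp
  calc _ = 4 * s * u * w * (1 / y) ^ n := by ring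
    _ = 4 * s * u * w * ((x / y) ^ n * (1 / x) ^ n) := by rw [h1]
    _ = _ := by ring

/-- the main count -/
theorem avoid {Fam : Finset (Expr σ ο)} {m : ℕ} (hm : ∀ t ∈ Fam, t.nodes = m) (hm0 : 1 ≤ m)
    (hF : Fam.Nonempty) (hs : 0 < Fintype.card σ) (ho : 0 < Fintype.card ο) {ε : ℝ} (hε : 0 < ε) :
    ∃ n₀, ∀ n ≥ n₀, An Fam n ≤ ε * Tn σ ο n := by
  set s : ℝ := (Fintype.card σ : ℝ) with hsdef
  set o : ℝ := (Fintype.card ο : ℝ) with hodef
  have hs' : 0 < s := by rw [hsdef]; exact_mod_cast hs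
  have ho' : 0 < o := by rw [hodef]; exact_mod_cast ho
  have hφ : (0 : ℝ) < Fam.card := by exact_mod_cast hF.card_pos
  set φ : ℝ := (Fam.card : ℝ) with hφdef
  set zc : ℝ := 1 / (4 * o * s) with hzc
  have hzc0 : 0 < zc := by positivity
  -- the critical point
  have hT : ∀ N, ∑ n ∈ range N, Tn σ ο n * zc ^ n ≤ 2 * s := by
    intro N
    induction N with
    | zero => simp; positivity
    | succ N ih =>
      rw [Finset.sum_range_succ']
      have h1 : ∑ n ∈ range N, Tn σ ο (n + 1) * zc ^ (n + 1) ≤ zc * o * (2 * s) ^ 2 := by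
        have h2 : ∀ n ∈ range N, Tn σ ο (n + 1) * zc ^ (n + 1) =
            zc * o * ((∑ p ∈ antidiagonal n, Tn σ ο p.1 * Tn σ ο p.2) * zc ^ n) := by
          intro n _
          rw [Tn_succ, pow_succ]; ring
        rw [Finset.sum_congr rfl h2, ← Finset.mul_sum]
        apply mul_le_mul_of_nonneg_left _ (by positivity)
        refine (conv_le _ Tn_nonneg zc hzc0.le N).trans ?_
        apply pow_le_pow_left₀ _ ih
        exact Finset.sum_nonneg fun n _ => mul_nonneg (Tn_nonneg n) (by positivity)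
      have h3 : zc * o * (2 * s) ^ 2 = s := by
        rw [hzc]; field_simp; ring
      rw [h3] at h1
      rw [Tn_zero, pow_zero, mul_one, ← hsdef]
      linarith
  -- a larger point
  obtain ⟨z0, hz0, hz1, hz2⟩ : ∃ z0, zc < z0 ∧ ∑ n ∈ range m, Tn σ ο n * z0 ^ n ≤ 2 * s ∧
      s + z0 * o * (2 * s) ^ 2 - φ * z0 ^ m ≤ 2 * s := by
    have h1 : ∑ n ∈ range m, Tn σ ο n * zc ^ n < 2 * s := by
      have h2 := hT (m + 1)
      rw [Finset.sum_range_succ] at h2
      have h3 : 0 < Tn σ ο m * zc ^ m := by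
        have h4 : 0 < Tn σ ο m := by
          have h5 : φ ≤ Tn σ ο m := by
            rw [hφdef]
            unfold Tn
            exact_mod_cast Finset.card_le_card fun t ht => (mem_ex t m).2 (hm t ht)
          linarith
        positivity
      linarith
    have h2 : s + zc * o * (2 * s) ^ 2 - φ * zc ^ m < 2 * s := by
      have h3 : zc * o * (2 * s) ^ 2 = s := by
        rw [hzc]; field_simp; ring
      rw [h3]
      have : 0 < φ * zc ^ m := by positivity
      linarith
    have hc1 : Continuous fun z : ℝ => ∑ n ∈ range m, Tn σ ο n * z ^ n := by fun_prop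
    have hc2 : Continuous fun z : ℝ => s + z * o * (2 * s) ^ 2 - φ * z ^ m := by fun_prop
    have e1 : ∀ᶠ z in 𝓝 zc, ∑ n ∈ range m, Tn σ ο n * z ^ n < 2 * s :=
      hc1.continuousAt.eventually_lt continuousAt_const h1
    have e2 : ∀ᶠ z in 𝓝 zc, s + z * o * (2 * s) ^ 2 - φ * z ^ m < 2 * s :=
      hc2.continuousAt.eventually_lt continuousAt_const h2
    have e3 : ∀ᶠ z in 𝓝[>] zc, zc < z ∧ ∑ n ∈ range m, Tn σ ο n * z ^ n < 2 * s ∧
        s + z * o * (2 * s) ^ 2 - φ * z ^ m < 2 * s := by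
      filter_upwards [self_mem_nhdsWithin, nhdsWithin_le_nhds e1, nhdsWithin_le_nhds e2]
        with z a b c using ⟨a, b, c⟩
    obtain ⟨z, a, b, c⟩ := e3.exists
    exact ⟨z, a, b.le, c.le⟩
  have hz00 : 0 < z0 := hzc0.trans hz0
  have hnn : ∀ n, 0 ≤ An Fam n * z0 ^ n := fun n => mul_nonneg (An_nonneg Fam n) (by positivity)
  have hA1 : ∀ N, N ≤ m → ∑ n ∈ range N, An Fam n * z0 ^ n ≤ 2 * s := by
    intro N hN
    calc ∑ n ∈ range N, An Fam n * z0 ^ n ≤ ∑ n ∈ range m, An Fam n * z0 ^ n :=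
          Finset.sum_le_sum_of_subset_of_nonneg (Finset.range_subset_range.2 hN)
            fun n _ _ => hnn n
      _ ≤ ∑ n ∈ range m, Tn σ ο n * z0 ^ n := Finset.sum_le_sum fun n _ =>
          mul_le_mul_of_nonneg_right (An_le Fam n) (by positivity)
      _ ≤ 2 * s := hz1
  obtain ⟨m', rfl⟩ : ∃ m', m = m' + 1 := ⟨m - 1, by omega⟩
  have hA2 : ∀ N, ∑ n ∈ range (m' + 1 + N), An Fam n * z0 ^ n ≤ 2 * s := by
    intro N
    induction N with
    | zero => exact hA1 _ (by omega)
    | succ N ih =>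
      rw [← Nat.add_assoc, Finset.sum_range_succ']
      set M := m' + 1 + N with hM
      have h0 : An Fam 0 ≤ s := (An_le Fam 0).trans (by rw [Tn_zero])
      have h1 : ∑ n ∈ range M, An Fam (n + 1) * z0 ^ (n + 1) + φ * z0 ^ (m' + 1) ≤
          z0 * o * (2 * s) ^ 2 := by
        have h2 : ∑ n ∈ range M, An Fam (n + 1) * z0 ^ (n + 1) + φ * z0 ^ (m' + 1) =
            ∑ n ∈ range M, (An Fam (n + 1) + if n = m' then φ else 0) * z0 ^ (n + 1) := by
          simp only [add_mul, Finset.sum_add_distrib]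
          congr 1
          rw [Finset.sum_eq_single m']
          · rw [if_pos rfl]
          · intro b _ hb
            rw [if_neg hb, zero_mul]
          · intro h
            exact absurd (Finset.mem_range.2 (by omega)) h
        rw [h2]
        have h3 : ∀ n ∈ range M, (An Fam (n + 1) + if n = m' then φ else 0) * z0 ^ (n + 1) ≤
            z0 * o * ((∑ p ∈ antidiagonal n, An Fam p.1 * An Fam p.2) * z0 ^ n) := by
          intro n _
          have h4 : An Fam (n + 1) + (if n = m' then φ else 0) ≤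
              o * ∑ p ∈ antidiagonal n, An Fam p.1 * An Fam p.2 := by
            by_cases hn : n = m'
            · rw [if_pos hn]
              exact An_succ_le hm n (by omega)
            · rw [if_neg hn, add_zero]
              exact (An_succ_ne hm n (by omega)).le
          calc _ ≤ (o * ∑ p ∈ antidiagonal n, An Fam p.1 * An Fam p.2) * z0 ^ (n + 1) :=
                mul_le_mul_of_nonneg_right h4 (by positivity)
            _ = _ := by rw [pow_succ]; ring
        refine (Finset.sum_le_sum h3).trans ?_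
        rw [← Finset.mul_sum]
        apply mul_le_mul_of_nonneg_left _ (by positivity)
        refine (conv_le _ (An_nonneg Fam) z0 hz00.le M).trans ?_
        exact pow_le_pow_left₀ (Finset.sum_nonneg fun n _ => hnn n) ih _
      rw [pow_zero, mul_one]
      linarith
  have hA : ∀ n, An Fam n * z0 ^ n ≤ 2 * s := by
    intro n
    have h1 := hA2 (n + 1)
    refine le_trans ?_ h1
    exact Finset.single_le_sum (f := fun n => An Fam n * z0 ^ n) (fun n _ => hnn n)
      (Finset.mem_range.2 (by omega))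
  -- comparison
  set r : ℝ := zc / z0 with hr
  have hr0 : 0 < r := by positivity
  have hr1 : r < 1 := by rw [hr, div_lt_one hz00]; exact hz0
  have hlim : Tendsto (fun n : ℕ => 4 * ((n : ℝ) + 1) ^ 2 * r ^ n) atTop (𝓝 0) := by
    have h1 := tendsto_pow_const_mul_const_pow_of_abs_lt_one 2 (r := r) (by rwa [abs_of_pos hr0])
    have h2 := (tendsto_add_atTop_iff_nat 1).2 h1
    have h3 := h2.const_mul (4 / r)
    rw [mul_zero] at h3
    refine h3.congr fun n => ?_
    push_cast
    field_simp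
    ring
  obtain ⟨n₀, hn₀⟩ := (hlim.eventually (gt_mem_nhds hε)).exists_forall_of_atTop
  refine ⟨n₀, fun n hn => ?_⟩
  have h1 := hn₀ n hn
  have h2 : Tn σ ο n = s * (1 / zc) ^ n * (catalan n / 4 ^ n) := by
    rw [Tn_eq, hzc, one_div_one_div]
    rw [mul_pow, mul_pow]
    field_simp
    ring
  have h3 : 1 ≤ 2 * ((n : ℝ) + 1) ^ 2 * (catalan n / 4 ^ n) := by
    have h4 := catalan_ge n
    rw [← mul_div_assoc, le_div_iff₀ (by positivity), one_mul]
    exact h4
  have h4 : An Fam n ≤ 2 * s * (1 / z0) ^ n := by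
    have h5 := hA n
    rw [one_div, inv_pow, ← div_eq_mul_inv, le_div_iff₀ (by positivity)]
    exact h5
  calc An Fam n ≤ 2 * s * (1 / z0) ^ n := h4
    _ ≤ 2 * s * (1 / z0) ^ n * (2 * ((n : ℝ) + 1) ^ 2 * (catalan n / 4 ^ n)) :=
        le_mul_of_one_le_right (by positivity) h3
    _ = (4 * ((n : ℝ) + 1) ^ 2 * r ^ n) * Tn σ ο n := by
        rw [h2, hr]
        exact aux_id hzc0 hz00 s _ _ n
    _ ≤ ε * Tn σ ο n := mul_le_mul_of_nonneg_right h1.le (Tn_nonneg n)

end

end Pool.Agent.E8helper37.RX
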