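import Pool.Agent.E8helper48.RW.Alg
import Pool.Agent.H340R2.LW

/-!
# Few members of a progression are linear forms in logarithms
-/

set_option autoImplicit false

namespace Pool.Agent.E8helper37.RX

open Module
open Pool.Agent.H301R2.SSE (QB mem_QB Lt Lt_alg Lt_log)
open Pool.Agent.E8helper48.RW (inf_sup_le mm mm_apply mm_inj)

theorem tr_QB {g : ℂ} (hg : Transcendental ℚ g) : Transcendental QB g := by
  have : Algebra.IsAlgebraic ℚ QB :=
    ⟨fun x => (isAlgebraic_algebraMap_iff (algebraMap QB ℂ).injective).1 (mem_QB.1 x.2)⟩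
  exact fun h => hg (h.restrictScalars ℚ)

theorem tr_ne_zero {g : ℂ} (hg : Transcendental ℚ g) : g ≠ 0 := by
  rintro rfl
  exact hg isAlgebraic_zero

/-- powers of a transcendental number are linearly independent -/
theorem pow_indep {g : ℂ} (hg : Transcendental ℚ g) {c : ℂ} (hc : c ≠ 0) {ι : Type} (e : ι → ℕ)
    (he : Function.Injective e) : LinearIndependent QB (fun i : ι => c * g ^ e i) := by
  have h1 := (Polynomial.basisMonomials QB).linearIndependent
  have h2 : Function.Injective (Polynomial.aeval (R := QB) g).toLinearMap :=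
    transcendental_iff_injective.1 (tr_QB hg)
  have h3 := h1.map' _ (LinearMap.ker_eq_bot.2 h2)
  have h4 := h3.map' (mm c) (LinearMap.ker_eq_bot.2 (mm_inj hc))
  have h5 := h4.comp e he
  have h6 : (fun i : ι => c * g ^ e i) = ((mm c ∘ (Polynomial.aeval (R := QB) g).toLinearMap ∘
      (Polynomial.basisMonomials QB)) ∘ e) := by
    funext i
    simp
  rw [h6]
  exact h5

theorem span_finrank_le {ι : Type} [Fintype ι] (y : ι → ℂ) :
    finrank QB (Submodule.span QB (Set.range y)) ≤ Fintype.card ι := finrank_range_le_card y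

instance span_fd {ι : Type} [Finite ι] (y : ι → ℂ) :
    FiniteDimensional QB (Submodule.span QB (Set.range y)) :=
  FiniteDimensional.span_of_finite QB (Set.finite_range y)

/-- the product inequality modulo a space of finite dimension -/
theorem prod_ineq (X W Y V : Submodule QB ℂ) [FiniteDimensional QB X] [FiniteDimensional QB W]
    [FiniteDimensional QB Y] [FiniteDimensional QB V] (hW : W ≤ Lt ⊔ V)
    (hY : ∀ x ∈ X, ∀ w ∈ W, x * w ∈ Y) :
    finrank QB X * finrank QB W ≤ finrank QB Y + finrank QB X * (finrank QB X - 1) +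
      finrank QB X * finrank QB V := by
  have : FiniteDimensional QB (W ⊓ Lt : Submodule QB ℂ) :=
    Submodule.finiteDimensional_of_le inf_le_left
  have h1 := Pool.Agent.W254.HP.product_le X (W ⊓ Lt) Y inf_le_right
    (fun x hx w hw => hY x hx w hw.1)
  have h2 := inf_sup_le W Lt V
  rw [inf_eq_left.2 hW] at h2
  calc finrank QB X * finrank QB W ≤
        finrank QB X * (finrank QB (W ⊓ Lt : Submodule QB ℂ) + finrank QB V) :=
        Nat.mul_le_mul_left _ h2
    _ = finrank QB X * finrank QB (W ⊓ Lt : Submodule QB ℂ) + finrank QB X * finrank QB V := by ring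
    _ ≤ _ := Nat.add_le_add_right h1 _

/-- the first powers of `g` -/
noncomputable def Xp (g : ℂ) (x : ℕ) : Submodule QB ℂ :=
  Submodule.span QB (Set.range fun j : Fin x => (1 : ℂ) * g ^ (j : ℕ))

instance (g : ℂ) (x : ℕ) : FiniteDimensional QB (Xp g x) := by unfold Xp; infer_instance

theorem Xp_finrank {g : ℂ} (hg : Transcendental ℚ g) (x : ℕ) : finrank QB (Xp g x) = x := by
  unfold Xp
  rw [finrank_span_eq_card (pow_indep hg one_ne_zero _ Fin.val_injective)]
  simp

theorem span_mul_le {ι κ : Type} (x : ι → ℂ) (w : κ → ℂ) (Y : Submodule QB ℂ)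
    (h : ∀ i k, x i * w k ∈ Y) : ∀ a ∈ Submodule.span QB (Set.range x),
    ∀ b ∈ Submodule.span QB (Set.range w), a * b ∈ Y := by
  intro a ha b hb
  induction ha using Submodule.span_induction with
  | mem a ha =>
    obtain ⟨i, rfl⟩ := ha
    induction hb using Submodule.span_induction with
    | mem b hb => obtain ⟨k, rfl⟩ := hb; exact h i k
    | zero => rw [mul_zero]; exact Y.zero_mem
    | add u v _ _ hu hv => rw [mul_add]; exact Y.add_mem hu hv
    | smul c u _ hu => rw [mul_smul_comm]; exact Y.smul_mem c hu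
  | zero => rw [zero_mul]; exact Y.zero_mem
  | add u v _ _ hu hv => rw [add_mul]; exact Y.add_mem hu hv
  | smul c u _ hu => rw [smul_mul_assoc]; exact Y.smul_mem c hu

/-- (L1) -/
theorem exists_power {θ κ : ℂ} (hθ : Transcendental ℚ θ) (hκ : κ ≠ 0) (V : Submodule QB ℂ)
    [FiniteDimensional QB V] {K : ℕ} (hK : 2 * finrank QB V + 4 ≤ K) :
    ∃ k : Fin K, κ * θ ^ (k : ℕ) ∉ Lt ⊔ V := by
  by_contra hcon
  push Not at hcon
  have h1 := prod_ineq (Xp θ 2) (Submodule.span QB (Set.range fun k : Fin K => κ * θ ^ (k : ℕ)))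
    (Submodule.span QB (Set.range fun k : Fin (K + 1) => κ * θ ^ (k : ℕ))) V (by
      rw [Submodule.span_le]
      rintro _ ⟨k, rfl⟩
      exact hcon k) (by
      unfold Xp
      apply span_mul_le
      intro i k
      apply Submodule.subset_span
      refine ⟨⟨i + k, by omega⟩, ?_⟩
      simp only
      rw [pow_add]; ring)
  rw [Xp_finrank hθ, finrank_span_eq_card (pow_indep hθ hκ _ Fin.val_injective),
    finrank_span_eq_card (pow_indep hθ hκ _ Fin.val_injective)] at h1
  simp only [Fintype.card_fin] at h1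
  omega

/-- (L2) -/
theorem geom_le {g κ : ℂ} (hg : Transcendental ℚ g) (hκ : κ ≠ 0) (V : Submodule QB ℂ)
    [FiniteDimensional QB V] {h : ℕ} (I : Finset ℕ)
    (hI : ∀ i ∈ I, i < h + 1 ∧ κ * g ^ i ∈ Lt ⊔ V) :
    I.card ≤ finrank QB V + 2 * Nat.sqrt h + 2 := by
  set x := Nat.sqrt h + 1 with hx
  have h1 := prod_ineq (Xp g x) (Submodule.span QB (Set.range fun i : I => κ * g ^ (i : ℕ)))
    (Submodule.span QB (Set.range fun k : Fin (h + x) => κ * g ^ (k : ℕ))) V (by
      rw [Submodule.span_le]
      rintro _ ⟨i, rfl⟩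
      exact (hI i i.2).2) (by
      unfold Xp
      apply span_mul_le
      intro j i
      apply Submodule.subset_span
      have := (hI i i.2).1
      refine ⟨⟨j + i, by omega⟩, ?_⟩
      simp only
      rw [pow_add]; ring)
  rw [Xp_finrank hg, finrank_span_eq_card (pow_indep hg hκ _ Subtype.val_injective),
    finrank_span_eq_card (pow_indep hg hκ _ Fin.val_injective)] at h1
  simp only [Fintype.card_fin, Fintype.card_coe] at h1
  have h2 : h < x * x := Nat.lt_succ_sqrt h
  have h3 : x * (x - 1) + x = x * x := by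
    rw [hx, Nat.add_sub_cancel]; ring
  by_contra hcon
  have h4 : finrank QB V + 2 * x + 1 ≤ I.card := by omega
  have h5 := Nat.mul_le_mul_left x h4
  have h6 : x * (finrank QB V + 2 * x + 1) = x * finrank QB V + 2 * (x * x) + x := by ring
  rw [h6] at h5
  have h7 : 0 < x := by omega
  omega

/-- partial fractions -/
theorem inv_indep {ξ : ℂ} (hξ : Transcendental ℚ ξ) (I : Finset ℕ) :
    LinearIndependent QB (fun i : I => (ξ + ((i : ℕ) : ℂ))⁻¹) := by
  classical
  rw [Fintype.linearIndependent_iff]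
  intro c hc i₀
  have hne : ∀ n : ℕ, ξ + (n : ℂ) ≠ 0 := by
    intro n h
    apply hξ
    rw [eq_neg_of_add_eq_zero_left h]
    exact (isAlgebraic_natCast n).neg
  let p : Polynomial QB := ∑ i : I, Polynomial.C (c i) *
    ∏ j ∈ (Finset.univ : Finset I).erase i, (Polynomial.X + Polynomial.C ((j : ℕ) : QB))
  have h1 : Polynomial.aeval ξ p = 0 := by
    have h2 : ∀ i : I, Polynomial.aeval ξ (Polynomial.C (c i) *
        ∏ j ∈ (Finset.univ : Finset I).erase i, (Polynomial.X + Polynomial.C ((j : ℕ) : QB))) =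
        (∏ j : I, (ξ + ((j : ℕ) : ℂ))) * (c i • (ξ + ((i : ℕ) : ℂ))⁻¹) := by
      intro i
      rw [← Finset.mul_prod_erase _ _ (Finset.mem_univ i), map_mul, map_prod, Polynomial.aeval_C,
        Algebra.smul_def]
      have h3 : ∀ j : I, Polynomial.aeval ξ (Polynomial.X + Polynomial.C ((j : ℕ) : QB)) =
          ξ + ((j : ℕ) : ℂ) := by
        intro j
        rw [map_add, Polynomial.aeval_X, Polynomial.aeval_C, map_natCast]
      rw [Finset.prod_congr rfl fun j _ => h3 j]
      have h4 := hne i
      field_simp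
    simp only [p]
    rw [map_sum, Finset.sum_congr rfl fun i _ => h2 i, ← Finset.mul_sum, hc, mul_zero]
  have h2 : p = 0 := by
    by_contra hp
    exact tr_QB hξ ⟨p, hp, h1⟩
  have h3 := congrArg (Polynomial.eval (-((i₀ : ℕ) : QB))) h2
  simp only [p] at h3
  rw [Polynomial.eval_finsetSum, Finset.sum_eq_single i₀, Polynomial.eval_mul, Polynomial.eval_C,
    Polynomial.eval_prod, Polynomial.eval_zero, mul_eq_zero] at h3
  · rcases h3 with h3 | h3
    · exact h3
    · exfalso
      rw [Finset.prod_eq_zero_iff] at h3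
      obtain ⟨j, hj, h4⟩ := h3
      rw [Polynomial.eval_add, Polynomial.eval_X, Polynomial.eval_C] at h4
      have h5 : ((j : ℕ) : QB) = ((i₀ : ℕ) : QB) := by linear_combination h4
      have h6 : (j : ℕ) = (i₀ : ℕ) := by exact_mod_cast h5
      exact (Finset.mem_erase.1 hj).1 (Subtype.ext h6)
  · intro b _ hb
    rw [Polynomial.eval_mul, Polynomial.eval_prod, Finset.prod_eq_zero
      (Finset.mem_erase.2 ⟨hb.symm, Finset.mem_univ i₀⟩), mul_zero]
    rw [Polynomial.eval_add, Polynomial.eval_X, Polynomial.eval_C]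
    ring
  · intro h
    exact absurd (Finset.mem_univ _) h

/-- (L3) -/
theorem mob_le {ξ η β : ℂ} (hξ : Transcendental ℚ ξ) (hη : η ≠ 0) (V : Submodule QB ℂ)
    [FiniteDimensional QB V] (I : Finset ℕ)
    (hI : ∀ i ∈ I, β + η * (ξ + (i : ℂ))⁻¹ ∈ Lt ⊔ V) :
    I.card ≤ 2 * finrank QB V + 7 := by
  have hne : ∀ n : ℕ, ξ + (n : ℂ) ≠ 0 := by
    intro n h
    apply hξ
    rw [eq_neg_of_add_eq_zero_left h]
    exact (isAlgebraic_natCast n).neg
  have hz : LinearIndependent QB (fun i : I => η * (ξ + ((i : ℕ) : ℂ))⁻¹) :=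
    (inv_indep hξ I).map' (mm η) (LinearMap.ker_eq_bot.2 (mm_inj hη))
  set Z : Submodule QB ℂ := Submodule.span QB (Set.range fun i : I => η * (ξ + ((i : ℕ) : ℂ))⁻¹)
    with hZ
  have hZr : finrank QB Z = I.card := by
    rw [hZ, finrank_span_eq_card hz, Fintype.card_coe]
  set W : Submodule QB ℂ := Submodule.span QB
    (Set.range fun i : I => β + η * (ξ + ((i : ℕ) : ℂ))⁻¹) with hW
  have hW1 : I.card ≤ finrank QB W + 1 := by
    rw [← hZr]
    have h1 : Z ≤ W ⊔ Submodule.span QB {β} := by
      rw [hZ, Submodule.span_le]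
      rintro _ ⟨i, rfl⟩
      have h2 : η * (ξ + ((i : ℕ) : ℂ))⁻¹ = (β + η * (ξ + ((i : ℕ) : ℂ))⁻¹) - β := by ring
      simp only
      rw [h2]
      exact Submodule.sub_mem _ (Submodule.mem_sup_left (Submodule.subset_span ⟨i, rfl⟩))
        (Submodule.mem_sup_right (Submodule.mem_span_singleton_self β))
    have h3 := Submodule.finrank_mono h1
    have h4 := Submodule.finrank_add_le_finrank_add_finrank W (Submodule.span QB {β})
    have h5 : finrank QB (Submodule.span QB {β}) ≤ 1 := by
      have := finrank_span_le_card (R := QB) ({β} : Set ℂ)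
      simpa using this
    omega
  set Y : Submodule QB ℂ := Z ⊔ Submodule.span QB (Set.range ![η, β, β * ξ]) with hYd
  have hY1 : finrank QB Y ≤ I.card + 3 := by
    have h4 := Submodule.finrank_add_le_finrank_add_finrank Z
      (Submodule.span QB (Set.range ![η, β, β * ξ]))
    have h5 := span_finrank_le ![η, β, β * ξ]
    rw [Fintype.card_fin] at h5
    rw [hYd]
    omega
  have h1 := prod_ineq (Xp ξ 2) W Y V (by
      rw [hW, Submodule.span_le]
      rintro _ ⟨i, rfl⟩
      exact hI i i.2) (by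
      unfold Xp
      rw [hW]
      apply span_mul_le
      intro j i
      have e0 : η ∈ Y := Submodule.mem_sup_right (Submodule.subset_span ⟨0, rfl⟩)
      have e1 : β ∈ Y := Submodule.mem_sup_right (Submodule.subset_span ⟨1, rfl⟩)
      have e2 : β * ξ ∈ Y := Submodule.mem_sup_right (Submodule.subset_span ⟨2, rfl⟩)
      have e3 : η * (ξ + ((i : ℕ) : ℂ))⁻¹ ∈ Y :=
        Submodule.mem_sup_left (Submodule.subset_span ⟨i, rfl⟩)
      fin_cases j
      · simp only [pow_zero, one_mul]
        exact Y.add_mem e1 e3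
      · have e4 : (1 : ℂ) * ξ ^ 1 * (β + η * (ξ + ((i : ℕ) : ℂ))⁻¹) =
            β * ξ + η - ((i : ℕ) : QB) • (η * (ξ + ((i : ℕ) : ℂ))⁻¹) := by
          rw [Algebra.smul_def, map_natCast]
          have := hne i
          field_simp
          ring
        simp only
        rw [e4]
        exact Y.sub_mem (Y.add_mem e2 e0) (Y.smul_mem _ e3))
  rw [Xp_finrank hξ] at h1
  omega

/-! ### exponentials of algebraic numbers -/

/-- the theorem of Lindemann and Weierstrass for exponents which need not be distinct -/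
theorem lw_fiber {ι : Type} (s : Finset ι) (α β : ι → ℂ) (hα : ∀ i ∈ s, IsAlgebraic ℚ (α i))
    (hβ : ∀ i ∈ s, IsAlgebraic ℚ (β i)) (h : ∑ i ∈ s, β i * Complex.exp (α i) = 0) (γ : ℂ) :
    ∑ i ∈ s with α i = γ, β i = 0 := by
  classical
  by_cases hγ : γ ∈ s.image α
  · have h1 := Pool.Agent.H340R2.LW.lindemann_weierstrass (s.image α) (fun z => z)
      (fun z => ∑ i ∈ s with α i = z, β i) (by
        intro z hz
        rw [Finset.mem_image] at hz
        obtain ⟨i, hi, rfl⟩ := hz
        exact hα i hi) (by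
        intro z _
        have : ∀ t : Finset ι, t ⊆ s → IsAlgebraic ℚ (∑ i ∈ t, β i) := by
          intro t
          induction t using Finset.induction_on with
          | empty => intro _; rw [Finset.sum_empty]; exact isAlgebraic_zero
          | insert a t ha ih =>
            intro hts
            rw [Finset.sum_insert ha]
            exact (hβ a (hts (Finset.mem_insert_self a t))).add
              (ih ((Finset.subset_insert a t).trans hts))
        exact this _ (Finset.filter_subset _ _)) (by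
        intro a _ b _ hab
        exact hab) (by
        rw [← h, ← Finset.sum_fiberwise_of_maps_to (g := α) (t := s.image α)
          (fun i hi => Finset.mem_image_of_mem α hi)]
        refine Finset.sum_congr rfl fun z _ => ?_
        rw [Finset.sum_mul]
        refine Finset.sum_congr rfl fun i hi => ?_
        rw [(Finset.mem_filter.1 hi).2])
    exact h1 γ hγ
  · apply Finset.sum_eq_zero
    intro i hi
    rw [Finset.mem_filter] at hi
    exact absurd (hi.2 ▸ Finset.mem_image_of_mem α hi.1) hγ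

/-- (L4), four terms -/
theorem four_exp {a b c d x μ : ℂ} (hdet : a * d ≠ b * c) (hμ : μ ≠ 0) (n : Fin 4 → ℕ)
    (hn : Function.Injective n) (α : Fin 4 → ℂ) (hα : ∀ i, IsAlgebraic ℚ (α i))
    (h : ∀ i, (a * (x + μ * n i) + b) / (c * (x + μ * n i) + d) = Complex.exp (α i)) : False := by
  have hden : ∀ i, c * (x + μ * n i) + d ≠ 0 := by
    intro i h0
    have h1 := h i
    rw [h0, div_zero] at h1
    exact Complex.exp_ne_zero _ h1.symm
  have hdiff : ∀ i j, (Complex.exp (α i) - Complex.exp (α j)) *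
      ((c * (x + μ * n i) + d) * (c * (x + μ * n j) + d)) =
      (a * d - b * c) * μ * ((n i : ℂ) - n j) := by
    intro i j
    rw [← h i, ← h j]
    have h1 := hden i
    have h2 := hden j
    rw [div_sub_div _ _ h1 h2, div_mul_cancel₀ _ (mul_ne_zero h1 h2)]
    ring
  have hnn : ∀ i j, i ≠ j → ((n i : ℂ) - n j) ≠ 0 := by
    intro i j hij h0
    apply hij
    apply hn
    have : (n i : ℂ) = n j := by linear_combination h0
    exact_mod_cast this
  have hD : (a * d - b * c) * μ ≠ 0 := mul_ne_zero (sub_ne_zero.2 hdet) hμ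
  have hαne : ∀ i j, i ≠ j → α i ≠ α j := by
    intro i j hij h0
    have h1 := hdiff i j
    rw [h0, sub_self, zero_mul] at h1
    exact mul_ne_zero hD (hnn i j hij) h1.symm
  set r1 : ℂ := ((n 0 : ℂ) - n 3) * ((n 1 : ℂ) - n 2) with hr1
  set r2 : ℂ := ((n 0 : ℂ) - n 2) * ((n 1 : ℂ) - n 3) with hr2
  have hcross : (Complex.exp (α 0) - Complex.exp (α 2)) * (Complex.exp (α 1) - Complex.exp (α 3)) *
      r1 = (Complex.exp (α 0) - Complex.exp (α 3)) * (Complex.exp (α 1) - Complex.exp (α 2)) * r2 := by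
    have hP : (c * (x + μ * n 0) + d) * (c * (x + μ * n 1) + d) * (c * (x + μ * n 2) + d) *
        (c * (x + μ * n 3) + d) ≠ 0 :=
      mul_ne_zero (mul_ne_zero (mul_ne_zero (hden 0) (hden 1)) (hden 2)) (hden 3)
    apply mul_left_cancel₀ hP
    have e02 := hdiff 0 2
    have e13 := hdiff 1 3
    have e03 := hdiff 0 3
    have e12 := hdiff 1 2
    calc _ = ((Complex.exp (α 0) - Complex.exp (α 2)) *
          ((c * (x + μ * n 0) + d) * (c * (x + μ * n 2) + d))) *
          ((Complex.exp (α 1) - Complex.exp (α 3)) *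
          ((c * (x + μ * n 1) + d) * (c * (x + μ * n 3) + d))) * r1 := by ring
      _ = ((Complex.exp (α 0) - Complex.exp (α 3)) *
          ((c * (x + μ * n 0) + d) * (c * (x + μ * n 3) + d))) *
          ((Complex.exp (α 1) - Complex.exp (α 2)) *
          ((c * (x + μ * n 1) + d) * (c * (x + μ * n 2) + d))) * r2 := by
          rw [e02, e13, e03, e12, hr1, hr2]; ring
      _ = _ := by ring
  have hr12 : r1 - r2 ≠ 0 := by
    have : r1 - r2 = -(((n 0 : ℂ) - n 1) * ((n 2 : ℂ) - n 3)) := by rw [hr1, hr2]; ring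
    rw [this]
    exact neg_ne_zero.2 (mul_ne_zero (hnn 0 1 (by decide)) (hnn 2 3 (by decide)))
  -- the relation
  let A : Fin 6 → ℂ := ![α 0 + α 1, α 2 + α 3, α 0 + α 3, α 1 + α 2, α 0 + α 2, α 1 + α 3]
  let C : Fin 6 → ℂ := ![r1 - r2, r1 - r2, -r1, -r1, r2, r2]
  have hr1a : IsAlgebraic ℚ r1 := by
    rw [hr1]
    exact ((isAlgebraic_natCast _).sub (isAlgebraic_natCast _)).mul
      ((isAlgebraic_natCast _).sub (isAlgebraic_natCast _))
  have hr2a : IsAlgebraic ℚ r2 := by
    rw [hr2]
    exact ((isAlgebraic_natCast _).sub (isAlgebraic_natCast _)).mul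
      ((isAlgebraic_natCast _).sub (isAlgebraic_natCast _))
  have hrel : ∑ i, C i * Complex.exp (A i) = 0 := by
    simp only [Fin.sum_univ_six, C, A, Matrix.cons_val_zero, Matrix.cons_val_one, Matrix.cons_val]
    simp only [Complex.exp_add]
    linear_combination hcross
  have h1 := lw_fiber Finset.univ A C (by
    intro i _
    fin_cases i
    · exact (hα 0).add (hα 1)
    · exact (hα 2).add (hα 3)
    · exact (hα 0).add (hα 3)
    · exact (hα 1).add (hα 2)
    · exact (hα 0).add (hα 2)
    · exact (hα 1).add (hα 3)) (by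
    intro i _
    fin_cases i
    · exact hr1a.sub hr2a
    · exact hr1a.sub hr2a
    · exact hr1a.neg
    · exact hr1a.neg
    · exact hr2a
    · exact hr2a) hrel (α 0 + α 1)
  rw [Finset.sum_filter, Fin.sum_univ_six] at h1
  simp only [C, A, Matrix.cons_val_zero, Matrix.cons_val_one, Matrix.cons_val] at h1
  have n3 : α 0 + α 3 ≠ α 0 + α 1 := fun h => hαne 3 1 (by decide) (add_left_cancel h)
  have n12 : α 1 + α 2 ≠ α 0 + α 1 := fun h => hαne 2 0 (by decide) (by
    have : α 1 + α 2 = α 1 + α 0 := by rw [h, add_comm]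
    exact add_left_cancel this)
  have n2 : α 0 + α 2 ≠ α 0 + α 1 := fun h => hαne 2 1 (by decide) (add_left_cancel h)
  have n13 : α 1 + α 3 ≠ α 0 + α 1 := fun h => hαne 3 0 (by decide) (by
    have : α 1 + α 3 = α 1 + α 0 := by rw [h, add_comm]
    exact add_left_cancel this)
  simp only [if_true, n3, n12, n2, n13, if_false, add_zero] at h1
  by_cases h2 : α 2 + α 3 = α 0 + α 1
  · simp only [h2, if_true] at h1
    apply hr12
    have : 2 * (r1 - r2) = 0 := by linear_combination h1
    exact (mul_eq_zero.1 this).resolve_left (by norm_num)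
  · simp only [h2, if_false, add_zero] at h1
    exact hr12 h1

/-- (L4) -/
theorem exp_le {a b c d x μ : ℂ} (hdet : a * d ≠ b * c) (hμ : μ ≠ 0) (I : Finset ℕ)
    (hI : ∀ i ∈ I, ∃ α : ℂ, IsAlgebraic ℚ α ∧
      (a * (x + μ * i) + b) / (c * (x + μ * i) + d) = Complex.exp α) : I.card ≤ 3 := by
  by_contra hcon
  push Not at hcon
  obtain ⟨J, hJ, hJ4⟩ := Finset.exists_subset_card_eq (show 4 ≤ I.card by omega)
  let e := J.orderEmbOfFin hJ4
  have hmem : ∀ i, e i ∈ I := fun i => hJ (J.orderEmbOfFin_mem hJ4 i)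
  choose α hα1 hα2 using fun i => hI (e i) (hmem i)
  exact four_exp hdet hμ e e.injective α hα1 hα2

end Pool.Agent.E8helper37.RX
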