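import Pool.Agent.E8helper37.RX.Comb
import Pool.Agent.E8helper37.RX.Alg

/-!
# The pattern gives few bad values
-/

set_option autoImplicit false

namespace Pool.Agent.E8helper37.RX

open Finset Module
open Pool.Agent.H301R2.SSE (QB mem_QB Lt Lt_alg Lt_log)

theorem pt_update (θ : ℝ) {K h : ℕ} (i : Fin K → Fin (h + 1)) (k : Fin K) (x : Fin (h + 1)) :
    pt θ K h (Function.update i k x) = pt θ K h (Function.update i k 0) +
      (θ * (θ - 1)) * (θ ^ (k : ℕ) * ((x : ℕ) : ℝ)) := by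
  unfold pt
  have h1 : ∀ y : Fin (h + 1), ∑ j : Fin K, (((Function.update i k y j : Fin (h + 1)) : ℕ) : ℝ) *
      θ ^ (j : ℕ) = ((y : ℕ) : ℝ) * θ ^ (k : ℕ) +
        ∑ j ∈ Finset.univ.erase k, ((i j : ℕ) : ℝ) * θ ^ (j : ℕ) := by
    intro y
    rw [← Finset.add_sum_erase _ _ (Finset.mem_univ k), Function.update_self]
    congr 1
    refine Finset.sum_congr rfl fun j hj => ?_
    rw [Function.update_of_ne (Finset.mem_erase.1 hj).1]
  rw [h1 x, h1 0]
  simp only [Fin.val_zero, Nat.cast_zero, zero_mul, zero_add]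
  ring

theorem card_le_one_of {I : Finset ℕ} (h : ∀ i ∈ I, ∀ j ∈ I, i = j) : (I.card : ℝ) ≤ 1 := by
  have := Finset.card_le_one.2 h
  exact_mod_cast this

section

variable {θ : ℝ} (hθ : Transcendental ℚ θ)
include hθ

theorem trC : Transcendental ℚ (θ : ℂ) := fun h => hθ (by
  exact (isAlgebraic_algebraMap_iff (algebraMap ℝ ℂ).injective).1 h)

theorem mu_ne : ((θ * (θ - 1) : ℝ) : ℂ) ≠ 0 := by
  have h0 : θ ≠ 0 := fun h => hθ (by rw [h]; exact isAlgebraic_zero)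
  have h1 : θ ≠ 1 := fun h => hθ (by rw [h]; exact isAlgebraic_one)
  exact_mod_cast mul_ne_zero h0 (sub_ne_zero.2 h1)

omit hθ in
theorem diff_mem {κ : ℂ} (V : Submodule QB ℂ) {k m n : ℕ}
    (hk : κ * (θ : ℂ) ^ k ∉ Lt ⊔ V) {z : ℂ} (h1 : z + κ * ((θ : ℂ) ^ k * (m : ℂ)) ∈ Lt ⊔ V)
    (h2 : z + κ * ((θ : ℂ) ^ k * (n : ℂ)) ∈ Lt ⊔ V) : m = n := by
  by_contra hmn
  apply hk
  have h3 := (Lt ⊔ V).sub_mem h1 h2
  have h4 : ((m : QB) - (n : QB)) ≠ 0 := by
    intro h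
    apply hmn
    have : (m : QB) = (n : QB) := by linear_combination h
    exact_mod_cast this
  have h5 := (Lt ⊔ V).smul_mem (((m : QB) - (n : QB))⁻¹) h3
  have h6 : ((m : QB) - (n : QB))⁻¹ • (z + κ * ((θ : ℂ) ^ k * (m : ℂ)) -
      (z + κ * ((θ : ℂ) ^ k * (n : ℂ)))) = κ * (θ : ℂ) ^ k := by
    rw [Algebra.smul_def, map_inv₀, map_sub, map_natCast, map_natCast]
    have h7 : ((m : ℂ) - (n : ℂ)) ≠ 0 := by
      intro h
      apply hmn
      have : (m : ℂ) = (n : ℂ) := by linear_combination h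
      exact_mod_cast this
    field_simp
    ring
  rwa [h6] at h5

/-- (B1) -/
theorem base_mob {a b c d : ℂ} (hdet : a * d ≠ b * c) (V : Submodule QB ℂ)
    [FiniteDimensional QB V] {N K h : ℕ} (hV : finrank QB V ≤ N) (hK : 2 * N + 4 ≤ K) :
    ∑ i : Fin K → Fin (h + 1), ind ((a * ((pt θ K h i : ℝ) : ℂ) + b) /
      (c * ((pt θ K h i : ℝ) : ℂ) + d) ∈ Lt ⊔ V) ≤
      ((2 * N + 8 : ℝ) / ((h : ℝ) + 1)) * ((h : ℝ) + 1) ^ K := by
  have hh : (0 : ℝ) < (h : ℝ) + 1 := by positivity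
  have hμ := mu_ne hθ
  have hθC := trC hθ
  set μ : ℂ := ((θ * (θ - 1) : ℝ) : ℂ) with hμd
  have hpt : ∀ (i : Fin K → Fin (h + 1)) (k : Fin K) (x : Fin (h + 1)),
      ((pt θ K h (Function.update i k x) : ℝ) : ℂ) =
        ((pt θ K h (Function.update i k 0) : ℝ) : ℂ) + μ * ((θ : ℂ) ^ (k : ℕ) * ((x : ℕ) : ℂ)) := by
    intro i k x
    rw [pt_update, hμd]
    push_cast
    ring
  by_cases hc : c = 0
  · subst hc
    rw [mul_zero] at hdet
    have ha : a ≠ 0 := left_ne_zero_of_mul hdet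
    have hd : d ≠ 0 := right_ne_zero_of_mul hdet
    obtain ⟨k, hk⟩ := exists_power hθC (κ := a / d * μ) (mul_ne_zero (div_ne_zero ha hd) hμ) V
      (K := K) (by omega)
    refine (count_coord k _ 1 ?_).trans ?_
    · intro i
      apply sum_ind_le
      intro I hI
      apply card_le_one_of
      intro m hm n hn
      obtain ⟨hm1, hm2⟩ := hI m hm
      obtain ⟨hn1, hn2⟩ := hI n hn
      rw [hpt] at hm2 hn2
      refine diff_mem V hk (z := (a * ((pt θ K h (Function.update i k 0) : ℝ) : ℂ) + b) / d) ?_ ?_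
      · convert hm2 using 1
        rw [zero_mul, zero_add]
        field_simp
        ring
      · convert hn2 using 1
        rw [zero_mul, zero_add]
        field_simp
        ring
    · apply mul_le_mul_of_nonneg_right _ (by positivity)
      apply div_le_div_of_nonneg_right _ hh.le
      have : (0 : ℝ) ≤ N := by positivity
      linarith
  · obtain ⟨k0, hk0⟩ : ∃ k0 : Fin K, (k0 : ℕ) = 0 := ⟨⟨0, by omega⟩, rfl⟩
    obtain ⟨k1, hk1⟩ : ∃ k1 : Fin K, (k1 : ℕ) = 1 := ⟨⟨1, by omega⟩, rfl⟩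
    have hk01 : k0 ≠ k1 := fun h => by rw [h] at hk0; omega
    let ξ : (Fin K → Fin (h + 1)) → ℂ := fun i =>
      (((pt θ K h (Function.update i k0 0) : ℝ) : ℂ) + d / c) / μ
    have hsplit : ∀ i : Fin K → Fin (h + 1), ind ((a * ((pt θ K h i : ℝ) : ℂ) + b) /
        (c * ((pt θ K h i : ℝ) : ℂ) + d) ∈ Lt ⊔ V) ≤ ind (IsAlgebraic ℚ (ξ i)) +
        ind (¬ IsAlgebraic ℚ (ξ i) ∧ (a * ((pt θ K h i : ℝ) : ℂ) + b) /
          (c * ((pt θ K h i : ℝ) : ℂ) + d) ∈ Lt ⊔ V) := by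
      intro i
      by_cases h1 : IsAlgebraic ℚ (ξ i)
      · rw [ind_pos h1]
        have := ind_le_one ((a * ((pt θ K h i : ℝ) : ℂ) + b) /
          (c * ((pt θ K h i : ℝ) : ℂ) + d) ∈ Lt ⊔ V)
        have := ind_nonneg (¬ IsAlgebraic ℚ (ξ i) ∧ (a * ((pt θ K h i : ℝ) : ℂ) + b) /
          (c * ((pt θ K h i : ℝ) : ℂ) + d) ∈ Lt ⊔ V)
        linarith
      · rw [ind_neg h1, zero_add]
        exact ind_mono fun h => ⟨h1, h⟩
    have hB1 : ∑ i : Fin K → Fin (h + 1), ind (IsAlgebraic ℚ (ξ i)) ≤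
        1 / ((h : ℝ) + 1) * ((h : ℝ) + 1) ^ K := by
      apply count_coord k1
      intro i
      apply sum_ind_le
      intro I hI
      apply card_le_one_of
      intro m hm n hn
      obtain ⟨hm1, hm2⟩ := hI m hm
      obtain ⟨hn1, hn2⟩ := hI n hn
      by_contra hmn
      have h1 := hm2.sub hn2
      simp only [ξ] at h1
      rw [Function.update_comm hk01.symm, Function.update_comm hk01.symm, hpt, hpt _ k1 ⟨n, hn1⟩,
        hk1] at h1
      have h2 : (((pt θ K h (Function.update (Function.update i k0 0) k1 0) : ℝ) : ℂ) +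
          μ * ((θ : ℂ) ^ 1 * (m : ℂ)) + d / c) / μ -
          (((pt θ K h (Function.update (Function.update i k0 0) k1 0) : ℝ) : ℂ) +
          μ * ((θ : ℂ) ^ 1 * (n : ℂ)) + d / c) / μ = θ * ((m : ℂ) - n) := by
        field_simp
        ring
      rw [h2] at h1
      have h3 : ((m : ℂ) - n) ≠ 0 := by
        intro h
        apply hmn
        have : (m : ℂ) = (n : ℂ) := by linear_combination h
        exact_mod_cast this
      apply hθC
      have h4 : (θ : ℂ) = (θ * ((m : ℂ) - n)) * ((m : ℂ) - n)⁻¹ := by field_simp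
      rw [h4]
      exact h1.mul ((isAlgebraic_natCast m).sub (isAlgebraic_natCast n)).inv
    have hB2 : ∑ i : Fin K → Fin (h + 1), ind (¬ IsAlgebraic ℚ (ξ i) ∧
        (a * ((pt θ K h i : ℝ) : ℂ) + b) / (c * ((pt θ K h i : ℝ) : ℂ) + d) ∈ Lt ⊔ V) ≤
        (2 * N + 7 : ℝ) / ((h : ℝ) + 1) * ((h : ℝ) + 1) ^ K := by
      apply count_coord k0
      intro i
      apply sum_ind_le
      intro I hI
      rcases I.eq_empty_or_nonempty with rfl | ⟨n0, hn0⟩
      · rw [Finset.card_empty]; push_cast; positivity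
      have hξ0 : Transcendental ℚ (ξ i) := by
        obtain ⟨hn1, hn2, -⟩ := hI n0 hn0
        simp only [ξ, Function.update_idem] at hn2 ⊢
        exact hn2
      have h1 := mob_le hξ0 (η := (b * c - a * d) / (c ^ 2 * μ)) (β := a / c)
        (div_ne_zero (sub_ne_zero.2 (Ne.symm hdet)) (mul_ne_zero (pow_ne_zero 2 hc) hμ)) V I (by
        intro n hn
        obtain ⟨hn1, -, hn3⟩ := hI n hn
        rw [hpt, hk0] at hn3
        have hne : ξ i + (n : ℂ) ≠ 0 := by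
          intro h
          apply hξ0
          rw [eq_neg_of_add_eq_zero_left h]
          exact (isAlgebraic_natCast n).neg
        have h2 : ((pt θ K h (Function.update i k0 0) : ℝ) : ℂ) = μ * ξ i - d / c := by
          simp only [ξ]; field_simp; ring
        rw [h2] at hn3
        convert hn3 using 1
        have h3 : c * (μ * ξ i - d / c + μ * ((θ : ℂ) ^ 0 * (n : ℂ))) + d = c * μ * (ξ i + n) := by
          field_simp; ring
        have h4 : a * (μ * ξ i - d / c + μ * ((θ : ℂ) ^ 0 * (n : ℂ))) + b =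
            a * μ * (ξ i + n) - a * d / c + b := by
          field_simp; ring
        rw [h3, h4]
        generalize ξ i + (n : ℂ) = w at hne ⊢
        field_simp
        ring)
      have h2 : (I.card : ℝ) ≤ 2 * finrank QB V + 7 := by exact_mod_cast h1
      have h3 : (finrank QB V : ℝ) ≤ N := by exact_mod_cast hV
      linarith
    calc _ ≤ ∑ i : Fin K → Fin (h + 1), (ind (IsAlgebraic ℚ (ξ i)) +
          ind (¬ IsAlgebraic ℚ (ξ i) ∧ (a * ((pt θ K h i : ℝ) : ℂ) + b) /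
            (c * ((pt θ K h i : ℝ) : ℂ) + d) ∈ Lt ⊔ V)) := Finset.sum_le_sum fun i _ => hsplit i
      _ ≤ _ := by
        rw [Finset.sum_add_distrib]
        refine (add_le_add hB1 hB2).trans (le_of_eq ?_)
        ring

/-- (B3) -/
theorem base_log {a b c d : ℂ} (hdet : a * d ≠ b * c) {K h : ℕ} (hK : 1 ≤ K) :
    ∑ i : Fin K → Fin (h + 1), ind (∃ α : ℂ, IsAlgebraic ℚ α ∧ (a * ((pt θ K h i : ℝ) : ℂ) + b) /
      (c * ((pt θ K h i : ℝ) : ℂ) + d) = Complex.exp α) ≤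
      (3 / ((h : ℝ) + 1)) * ((h : ℝ) + 1) ^ K := by
  have hμ := mu_ne hθ
  obtain ⟨k0, hk0⟩ : ∃ k0 : Fin K, (k0 : ℕ) = 0 := ⟨⟨0, by omega⟩, rfl⟩
  apply count_coord k0
  intro i
  apply sum_ind_le
  intro I hI
  have h1 := exp_le (x := ((pt θ K h (Function.update i k0 0) : ℝ) : ℂ)) hdet hμ I (by
    intro n hn
    obtain ⟨hn1, α, hα, hn2⟩ := hI n hn
    refine ⟨α, hα, ?_⟩
    rw [← hn2, pt_update θ i k0 ⟨n, hn1⟩, hk0]
    push_cast
    simp only [pow_zero, one_mul])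
  exact_mod_cast h1

/-- (B2) -/
theorem base_exp {κ l : ℂ} (hκ : κ ≠ 0) (hl : l ≠ 0) (V : Submodule QB ℂ)
    [FiniteDimensional QB V] {N K h : ℕ} (hV : finrank QB V ≤ N) (hK : 4 ≤ K) :
    ∑ i : Fin K → Fin (h + 1), ind (κ * Complex.exp (l * ((pt θ K h i : ℝ) : ℂ)) ∈ Lt ⊔ V) ≤
      ((N + 2 * Nat.sqrt h + 2 : ℝ) / ((h : ℝ) + 1)) * ((h : ℝ) + 1) ^ K := by
  have hμ := mu_ne hθ
  have hθC := trC hθ
  obtain ⟨k, hk⟩ := exists_power hθC (κ := l * ((θ * (θ - 1) : ℝ) : ℂ)) (mul_ne_zero hl hμ) ⊥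
    (K := K) (by rw [finrank_bot]; omega)
  rw [sup_bot_eq] at hk
  have hg : Transcendental ℚ (Complex.exp (l * ((θ * (θ - 1) : ℝ) : ℂ) * (θ : ℂ) ^ (k : ℕ))) :=
    fun h => hk (Lt_log h)
  apply count_coord k
  intro i
  apply sum_ind_le
  intro I hI
  have h1 := geom_le (h := h) hg (κ := κ * Complex.exp (l * ((pt θ K h (Function.update i k 0) : ℝ) : ℂ)))
    (mul_ne_zero hκ (Complex.exp_ne_zero _)) V I (by
    intro n hn
    obtain ⟨hn1, hn2⟩ := hI n hn
    refine ⟨hn1, ?_⟩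
    convert hn2 using 1
    rw [pt_update θ i k ⟨n, hn1⟩, mul_assoc, ← Complex.exp_nat_mul, ← Complex.exp_add]
    congr 2
    push_cast
    ring)
  have h2 : (I.card : ℝ) ≤ finrank QB V + 2 * Nat.sqrt h + 2 := by exact_mod_cast h1
  have h3 : (finrank QB V : ℝ) ≤ N := by exact_mod_cast hV
  linarith

end

end Pool.Agent.E8helper37.RX
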