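import Pool.Agent.E8helper37.RX.Asy

/-!
# The pattern
-/

set_option autoImplicit false
set_option linter.unusedSectionVars false

namespace Pool.Agent.E8helper37.RX

open Finset

variable {σ ο : Type}

/-- add the leaf `s` `k` times -/
def addn (p : ο) (s : σ) : ℕ → Expr σ ο → Expr σ ο
  | 0, t => t
  | k + 1, t => Expr.node p (addn p s k t) (Expr.leaf s)

/-- a block -/
def blk (p q : ο) (s : σ) (h i : ℕ) (t : Expr σ ο) : Expr σ ο :=
  addn p s (h - i) (Expr.node q (addn p s i t) (Expr.leaf s))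

/-- the pattern -/
def comb (p q : ο) (s : σ) (h : ℕ) : List ℕ → Expr σ ο
  | [] => Expr.leaf s
  | i :: l => blk p q s h i (comb p q s h l)

theorem addn_nodes (p : ο) (s : σ) (k : ℕ) (t : Expr σ ο) : (addn p s k t).nodes = t.nodes + k := by
  induction k with
  | zero => rfl
  | succ k ih => simp only [addn, Expr.nodes, ih]; omega

theorem comb_nodes (p q : ο) (s : σ) (h : ℕ) (l : List ℕ) (hl : ∀ i ∈ l, i ≤ h) :
    (comb p q s h l).nodes = l.length * (h + 1) := by
  induction l with
  | nil => simp [comb, Expr.nodes]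
  | cons i l ih =>
    have h1 := hl i (by simp)
    have h2 := ih fun j hj => hl j (by simp [hj])
    simp only [comb, blk, addn_nodes, Expr.nodes, h2, List.length_cons]
    have h3 : l.length * (h + 1) + i + 0 + 1 + (h - i) = l.length * (h + 1) + (h + 1) := by omega
    rw [h3]; ring

theorem addn_inj (p : ο) (s : σ) (k : ℕ) {t t' : Expr σ ο} (h : addn p s k t = addn p s k t') :
    t = t' := by
  induction k with
  | zero => exact h
  | succ k ih =>
    simp only [addn, Expr.node.injEq, true_and, and_true] at h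
    exact ih h

theorem addn_node_inj {p q : ο} (hpq : p ≠ q) (s : σ) (k : ℕ) {t t' : Expr σ ο} : ∀ k' : ℕ,
    addn p s k (Expr.node q t (Expr.leaf s)) = addn p s k' (Expr.node q t' (Expr.leaf s)) →
    k = k' ∧ t = t' := by
  induction k with
  | zero =>
    intro k' h
    rcases k' with _ | k'
    · simp only [addn, Expr.node.injEq, true_and, and_true] at h
      exact ⟨rfl, h⟩
    · simp only [addn, Expr.node.injEq] at h
      exact absurd h.1.symm hpq
  | succ k ih =>
    intro k' h
    rcases k' with _ | k'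
    · simp only [addn, Expr.node.injEq] at h
      exact absurd h.1 hpq
    · simp only [addn, Expr.node.injEq, true_and, and_true] at h
      obtain ⟨h1, h2⟩ := ih k' h
      exact ⟨by rw [h1], h2⟩

theorem blk_inj {p q : ο} (hpq : p ≠ q) (s : σ) (h : ℕ) {i i' : ℕ} (hi : i ≤ h) (hi' : i' ≤ h)
    {t t' : Expr σ ο} (he : blk p q s h i t = blk p q s h i' t') : i = i' ∧ t = t' := by
  obtain ⟨h1, h2⟩ := addn_node_inj hpq s (h - i) (h - i') he
  have h3 : i = i' := by omega
  subst h3
  exact ⟨rfl, addn_inj p s i h2⟩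

theorem comb_inj {p q : ο} (hpq : p ≠ q) (s : σ) (h : ℕ) (l : List ℕ) : ∀ l' : List ℕ,
    (∀ i ∈ l, i ≤ h) → (∀ i ∈ l', i ≤ h) → l.length = l'.length →
    comb p q s h l = comb p q s h l' → l = l' := by
  induction l with
  | nil =>
    intro l' _ _ h1 _
    exact (List.length_eq_zero_iff.1 h1.symm).symm
  | cons i l ih =>
    intro l' h1 h2 h3 h4
    rcases l' with _ | ⟨i', l'⟩
    · simp at h3
    · simp only [comb] at h4
      obtain ⟨h5, h6⟩ := blk_inj hpq s h (h1 i (by simp)) (h2 i' (by simp)) h4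
      subst h5
      rw [ih l' (fun j hj => h1 j (by simp [hj])) (fun j hj => h2 j (by simp [hj]))
        (by simpa using h3) h6]

/-! ### the values -/

/-- the polynomial -/
def pv (θ : ℝ) : List ℕ → ℝ
  | [] => 0
  | i :: l => i + θ * pv θ l

/-- the constant term -/
def base (θ : ℝ) (h : ℕ) : ℕ → ℝ
  | 0 => θ
  | K + 1 => θ * base θ h K + h * θ

theorem addn_value {f : ο → ℝ → ℝ → ℝ} {v : σ → ℝ} {p : ο} (hp : f p = fun x y => x + y) (s : σ)
    (k : ℕ) (t : Expr σ ο) : (addn p s k t).value f v = t.value f v + k * v s := by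
  induction k with
  | zero => simp [addn]
  | succ k ih => simp only [addn, Expr.value, ih, hp]; push_cast; ring

theorem comb_value {f : ο → ℝ → ℝ → ℝ} {v : σ → ℝ} {p q : ο} (hp : f p = fun x y => x + y)
    (hq : f q = fun x y => x * y) (s : σ) (h : ℕ) (l : List ℕ) (hl : ∀ i ∈ l, i ≤ h) :
    (comb p q s h l).value f v =
      base (v s) h l.length + (v s * (v s - 1)) * pv (v s) l := by
  induction l with
  | nil => simp [comb, Expr.value, base, pv]
  | cons i l ih =>
    have h1 := hl i (by simp)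
    have h2 := ih fun j hj => hl j (by simp [hj])
    simp only [comb, blk, addn_value hp, Expr.value, hq, h2, List.length_cons, base, pv]
    rw [Nat.cast_sub h1]
    ring

theorem pv_ofFn (θ : ℝ) {K : ℕ} (i : Fin K → ℕ) :
    pv θ (List.ofFn i) = ∑ k : Fin K, (i k : ℝ) * θ ^ (k : ℕ) := by
  induction K with
  | zero => simp [pv]
  | succ K ih =>
    rw [List.ofFn_succ, pv, ih, Fin.sum_univ_succ, Finset.mul_sum]
    simp only [Fin.val_zero, pow_zero, mul_one, Fin.val_succ]
    congr 1
    refine Finset.sum_congr rfl fun k _ => ?_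
    ring

/-- the list of exponents -/
def lst {K h : ℕ} (i : Fin K → Fin (h + 1)) : List ℕ := List.ofFn fun k => (i k : ℕ)

theorem lst_le {K h : ℕ} (i : Fin K → Fin (h + 1)) : ∀ j ∈ lst i, j ≤ h := by
  intro j hj
  unfold lst at hj
  rw [List.mem_ofFn] at hj
  obtain ⟨k, rfl⟩ := hj
  have := (i k).2
  omega

/-- the point -/
noncomputable def pt (θ : ℝ) (K h : ℕ) (i : Fin K → Fin (h + 1)) : ℝ :=
  base θ h K + (θ * (θ - 1)) * ∑ k : Fin K, ((i k : ℕ) : ℝ) * θ ^ (k : ℕ)

section

variable [DecidableEq σ] [DecidableEq ο]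

/-- the family -/
def fam (p q : ο) (s : σ) (K h : ℕ) : Finset (Expr σ ο) :=
  (Finset.univ : Finset (Fin K → Fin (h + 1))).image fun i => comb p q s h (lst i)

theorem fam_nodes (p q : ο) (s : σ) (K h : ℕ) : ∀ t ∈ fam p q s K h, t.nodes = K * (h + 1) := by
  intro t ht
  unfold fam at ht
  rw [Finset.mem_image] at ht
  obtain ⟨i, -, rfl⟩ := ht
  rw [comb_nodes _ _ _ _ _ (lst_le i)]
  simp [lst]

theorem fam_inj {p q : ο} (hpq : p ≠ q) (s : σ) (K h : ℕ) :
    Function.Injective fun i : Fin K → Fin (h + 1) => comb p q s h (lst i) := by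
  intro i j hij
  have h1 := comb_inj hpq s h (lst i) (lst j) (lst_le i) (lst_le j) (by simp [lst]) hij
  unfold lst at h1
  have h2 := List.ofFn_injective h1
  funext k
  exact Fin.ext (congrFun h2 k)

theorem fam_card {p q : ο} (hpq : p ≠ q) (s : σ) (K h : ℕ) :
    ((fam p q s K h).card : ℝ) = ((h : ℝ) + 1) ^ K := by
  unfold fam
  rw [Finset.card_image_of_injective _ (fam_inj hpq s K h)]
  simp

theorem fam_sum {f : ο → ℝ → ℝ → ℝ} {v : σ → ℝ} {p q : ο} (hp : f p = fun x y => x + y)
    (hq : f q = fun x y => x * y) (hpq : p ≠ q) (s : σ) (K h : ℕ) (P : ℝ → Prop) :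
    ∑ t ∈ fam p q s K h, ind (P (t.value f v)) =
      ∑ i : Fin K → Fin (h + 1), ind (P (pt (v s) K h i)) := by
  unfold fam
  rw [Finset.sum_image fun i _ j _ hij => fam_inj hpq s K h hij]
  refine Finset.sum_congr rfl fun i _ => ?_
  rw [comb_value hp hq s h (lst i) (lst_le i)]
  unfold pt lst
  rw [pv_ofFn]
  simp

end

/-! ### counting along a coordinate -/

theorem count_coord {K h : ℕ} (k : Fin K) (Q : (Fin K → Fin (h + 1)) → Prop) (B : ℝ)
    (hB : ∀ i, ∑ x : Fin (h + 1), ind (Q (Function.update i k x)) ≤ B) :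
    ∑ i : Fin K → Fin (h + 1), ind (Q i) ≤ B / ((h : ℝ) + 1) * ((h : ℝ) + 1) ^ K := by
  let g : (Fin K → Fin (h + 1)) × Fin (h + 1) → (Fin K → Fin (h + 1)) × Fin (h + 1) :=
    fun z => (Function.update z.1 k z.2, z.1 k)
  have hg : Function.Involutive g := by
    rintro ⟨i, x⟩
    simp only [g]
    rw [Function.update_idem, Function.update_eq_self, Function.update_self]
  have h1 : ∑ z : (Fin K → Fin (h + 1)) × Fin (h + 1), ind (Q (g z).1) =
      ∑ z : (Fin K → Fin (h + 1)) × Fin (h + 1), ind (Q z.1) :=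
    Equiv.sum_comp (Function.Involutive.toPerm g hg) (fun z => ind (Q z.1))
  rw [Fintype.sum_prod_type, Fintype.sum_prod_type] at h1
  simp only [Finset.sum_const, Finset.card_univ, Fintype.card_fin, nsmul_eq_mul, g] at h1
  rw [← Finset.mul_sum] at h1
  have h2 : ∑ i : Fin K → Fin (h + 1), ∑ x : Fin (h + 1), ind (Q (Function.update i k x)) ≤
      ((h : ℝ) + 1) ^ K * B := by
    refine (Finset.sum_le_sum fun i _ => hB i).trans (le_of_eq ?_)
    simp
  rw [h1] at h2
  push_cast at h2
  have h3 : (0 : ℝ) < (h : ℝ) + 1 := by positivity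
  rw [div_mul_eq_mul_div, le_div_iff₀ h3]
  linarith

theorem sum_ind_le {h : ℕ} (R : Fin (h + 1) → Prop) (B : ℝ)
    (hB : ∀ I : Finset ℕ, (∀ n ∈ I, ∃ hn : n < h + 1, R ⟨n, hn⟩) → (I.card : ℝ) ≤ B) :
    ∑ x : Fin (h + 1), ind (R x) ≤ B := by
  classical
  have h1 : ∑ x : Fin (h + 1), ind (R x) = ((Finset.univ.filter R).card : ℝ) := by
    rw [Finset.card_filter, Nat.cast_sum]
    refine Finset.sum_congr rfl fun x _ => ?_
    by_cases hx : R x
    · rw [ind_pos hx, if_pos hx, Nat.cast_one]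
    · rw [ind_neg hx, if_neg hx, Nat.cast_zero]
  have h2 := hB ((Finset.univ.filter R).image fun x : Fin (h + 1) => (x : ℕ)) (by
    intro n hn
    rw [Finset.mem_image] at hn
    obtain ⟨x, hx, rfl⟩ := hn
    exact ⟨x.2, (Finset.mem_filter.1 hx).2⟩)
  rw [Finset.card_image_of_injective _ Fin.val_injective] at h2
  rw [h1]
  exact h2

end Pool.Agent.E8helper37.RX
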