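import Mathlib

/-!
# Arithmetic expressions, patterns at the fringe
-/

set_option autoImplicit false

namespace Pool.Agent.E8helper37.RX

open Finset

/-- Expressions with leaves in `σ` and binary operations in `ο` (all binary trees). -/
inductive Expr (σ ο : Type) : Type
  | leaf : σ → Expr σ ο
  | node : ο → Expr σ ο → Expr σ ο → Expr σ ο
deriving DecidableEq

variable {σ ο : Type}

/-- The number of leaves. -/
def Expr.leaves : Expr σ ο → ℕ
  | .leaf _ => 1
  | .node _ l r => l.leaves + r.leaves

/-- The value of an expression. -/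
def Expr.value {X : Type} (f : ο → X → X → X) (v : σ → X) : Expr σ ο → X
  | .leaf s => v s
  | .node o l r => f o (l.value f v) (r.value f v)

/-- the number of nodes -/
def Expr.nodes : Expr σ ο → ℕ
  | .leaf _ => 0
  | .node _ l r => l.nodes + r.nodes + 1

theorem Expr.leaves_eq (t : Expr σ ο) : t.leaves = t.nodes + 1 := by
  induction t with
  | leaf s => rfl
  | node o l r hl hr => simp only [Expr.leaves, Expr.nodes, hl, hr]; omega

section

variable [Fintype σ] [Fintype ο] [DecidableEq σ] [DecidableEq ο]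

/-- the expressions with `n` nodes -/
def ex (σ ο : Type) [Fintype σ] [Fintype ο] [DecidableEq σ] [DecidableEq ο] :
    ℕ → Finset (Expr σ ο)
  | 0 => (Finset.univ : Finset σ).image Expr.leaf
  | n + 1 => (antidiagonal n).attach.biUnion fun p =>
      have := (HasAntidiagonal.mem_antidiagonal.1 p.2)
      ((Finset.univ : Finset ο) ×ˢ (ex σ ο p.1.1 ×ˢ ex σ ο p.1.2)).image
        fun x => Expr.node x.1 x.2.1 x.2.2
  decreasing_by
    · simp_wf
      have := (HasAntidiagonal.mem_antidiagonal.1 p.2)
      omega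
    · simp_wf
      have := (HasAntidiagonal.mem_antidiagonal.1 p.2)
      omega

theorem mem_ex (t : Expr σ ο) : ∀ n, t ∈ ex σ ο n ↔ t.nodes = n := by
  induction t with
  | leaf s =>
    intro n
    rcases n with _ | n
    · simp [ex, Expr.nodes]
    · unfold ex
      simp [Expr.nodes]
  | node o l r hl hr =>
    intro n
    rcases n with _ | n
    · simp [ex, Expr.nodes]
    · unfold ex
      simp only [mem_biUnion, mem_attach, true_and, Subtype.exists, mem_image, mem_product,
        mem_univ, Prod.exists, Expr.node.injEq, Expr.nodes]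
      constructor
      · rintro ⟨i, j, hij, o', l', r', ⟨h1, h2⟩, -, rfl, rfl⟩
        rw [hl] at h1
        rw [hr] at h2
        rw [HasAntidiagonal.mem_antidiagonal] at hij
        simp only at h1 h2 hij
        omega
      · intro h
        refine ⟨l.nodes, r.nodes, ?_, o, l, r, ⟨(hl _).2 rfl, (hr _).2 rfl⟩, rfl, rfl, rfl⟩
        rw [HasAntidiagonal.mem_antidiagonal]
        omega

theorem sum_ex_succ {M : Type} [AddCommMonoid M] (n : ℕ) (F : Expr σ ο → M) :
    ∑ t ∈ ex σ ο (n + 1), F t = ∑ p ∈ antidiagonal n, ∑ o : ο,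
      ∑ l ∈ ex σ ο p.1, ∑ r ∈ ex σ ο p.2, F (Expr.node o l r) := by
  have h1 : ex σ ο (n + 1) = (antidiagonal n).biUnion fun p =>
      ((Finset.univ : Finset ο) ×ˢ (ex σ ο p.1 ×ˢ ex σ ο p.2)).image
        fun x => Expr.node x.1 x.2.1 x.2.2 := by
    ext t
    rw [mem_ex]
    simp only [mem_biUnion, mem_image, mem_product, mem_univ, true_and, Prod.exists]
    constructor
    · intro h
      rcases t with s | ⟨o, l, r⟩
      · simp [Expr.nodes] at h
      · refine ⟨l.nodes, r.nodes, ?_, o, l, r, ⟨(mem_ex l _).2 rfl, (mem_ex r _).2 rfl⟩, rfl⟩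
        rw [HasAntidiagonal.mem_antidiagonal]
        simp only [Expr.nodes] at h
        omega
    · rintro ⟨i, j, hij, o, l, r, ⟨h1, h2⟩, rfl⟩
      rw [mem_ex] at h1 h2
      rw [HasAntidiagonal.mem_antidiagonal] at hij
      simp only [Expr.nodes] at *
      omega
  rw [h1, Finset.sum_biUnion]
  · refine Finset.sum_congr rfl fun p _ => ?_
    rw [Finset.sum_image, Finset.sum_product]
    · refine Finset.sum_congr rfl fun o _ => ?_
      rw [Finset.sum_product]
    · rintro ⟨o, l, r⟩ - ⟨o', l', r'⟩ - h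
      simp only [Expr.node.injEq] at h
      obtain ⟨rfl, rfl, rfl⟩ := h
      rfl
  · intro p _ q _ hpq
    rw [Function.onFun, Finset.disjoint_left]
    intro t ht ht'
    simp only [mem_image, mem_product, mem_univ, true_and, Prod.exists] at ht ht'
    obtain ⟨o, l, r, ⟨h1, h2⟩, rfl⟩ := ht
    obtain ⟨o', l', r', ⟨h3, h4⟩, h5⟩ := ht'
    simp only [Expr.node.injEq] at h5
    obtain ⟨-, rfl, rfl⟩ := h5
    rw [mem_ex] at h1 h2 h3 h4
    exact hpq (Prod.ext (h1.symm.trans h3) (h2.symm.trans h4))

theorem sum_ex_zero {M : Type} [AddCommMonoid M] (F : Expr σ ο → M) :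
    ∑ t ∈ ex σ ο 0, F t = ∑ s : σ, F (Expr.leaf s) := by
  unfold ex
  rw [Finset.sum_image]
  intro a _ b _ h
  simpa using h

end

end Pool.Agent.E8helper37.RX
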