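import Pool.Agent.E8helper37.RX.Base

/-!
# Almost all arithmetic expressions
-/

set_option autoImplicit false

namespace Pool.Agent.E8helper37.RX

open Finset Module
open Pool.Agent.H301R2.SSE (QB mem_QB Lt Lt_alg Lt_log)

variable {σ ο : Type}

theorem value_pos {f : ο → ℝ → ℝ → ℝ} (hf : ∀ o x y, 0 < x → 0 < y → 0 < f o x y) {v : σ → ℝ}
    (hv : ∀ s, 0 < v s) (t : Expr σ ο) : 0 < t.value f v := by
  induction t with
  | leaf s => exact hv s
  | node o l r hl hr => exact hf o _ _ hl hr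

section

variable [Fintype σ] [Fintype ο] [DecidableEq σ] [DecidableEq ο]

theorem assemble {f : ο → ℝ → ℝ → ℝ} {v : σ → ℝ} {p q : ο} (hp : f p = fun x y => x + y)
    (hq : f q = fun x y => x * y) (hpq : p ≠ q) (s : σ) (Φ : (ℝ → Prop) → Prop)
    (hΦ : ∀ P, Φ P → ∀ (o : ο) (t : Expr σ ο), Φ (fun x => P (f o x (t.value f v))) ∧
      Φ (fun x => P (f o (t.value f v) x))) (K h : ℕ) (hK : 1 ≤ K) (δ : ℝ) (hδ0 : 0 ≤ δ)
    (hδ : ∀ P, Φ P → ∑ i : Fin K → Fin (h + 1), ind (P (pt (v s) K h i)) ≤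
      δ * ((h : ℝ) + 1) ^ K) {ε : ℝ} (hε : 0 < ε) :
    ∃ n₀, ∀ n ≥ n₀, ∀ P, Φ P → ∑ t ∈ ex σ ο n, ind (P (t.value f v)) ≤ (δ + ε) * Tn σ ο n := by
  have hm : ∀ t ∈ fam p q s K h, t.nodes = K * (h + 1) := fam_nodes p q s K h
  have hm0 : 1 ≤ K * (h + 1) := Nat.mul_pos hK (by omega)
  have hne : (fam p q s K h).Nonempty := by
    unfold fam
    exact Finset.univ_nonempty.image _
  obtain ⟨n₀, hn₀⟩ := avoid hm hm0 hne (Fintype.card_pos_iff.2 ⟨s⟩) (Fintype.card_pos_iff.2 ⟨p⟩) hε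
  refine ⟨n₀, fun n hn P hP => ?_⟩
  have h1 := fringe hm hm0 Φ hΦ δ hδ0 (fun P hP => by
    rw [fam_sum hp hq hpq s K h P, fam_card hpq]
    exact hδ P hP) n P hP
  have h2 := hn₀ n hn
  have h3 : ∑ t ∈ ex σ ο n, ind (Has (fam p q s K h) t) ≤ Tn σ ο n := by
    unfold Tn
    calc _ ≤ ∑ t ∈ ex σ ο n, (1 : ℝ) := Finset.sum_le_sum fun t _ => ind_le_one _
      _ = _ := by simp
  have h4 : ∑ t ∈ ex σ ο n, ind (P (t.value f v)) ≤
      ∑ t ∈ ex σ ο n, ind (Has (fam p q s K h) t ∧ P (t.value f v)) + An (fam p q s K h) n := by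
    unfold An
    rw [← Finset.sum_add_distrib]
    refine Finset.sum_le_sum fun t _ => ?_
    by_cases h5 : Has (fam p q s K h) t
    · rw [ind_neg (not_not.2 h5), add_zero]
      exact ind_mono fun h => ⟨h5, h⟩
    · rw [ind_pos h5]
      have := ind_le_one (P (t.value f v))
      have := ind_nonneg (Has (fam p q s K h) t ∧ P (t.value f v))
      linarith
  have h5 := mul_le_mul_of_nonneg_left h3 hδ0
  rw [add_mul]
  linarith

end

/-- the predicates a Möbius transform of `x` is bad -/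
def PhiM (R : (ℂ → Prop) → Prop) (P : ℝ → Prop) : Prop :=
  ∃ (a b c d : ℂ) (Q : ℂ → Prop), a * d ≠ b * c ∧ R Q ∧
    ∀ x : ℝ, 0 < x → P x → Q ((a * (x : ℂ) + b) / (c * (x : ℂ) + d))

theorem PhiM_add {R : (ℂ → Prop) → Prop} {P : ℝ → Prop} (h : PhiM R P) {y : ℝ} (hy : 0 < y) :
    PhiM R (fun x => P (x + y)) := by
  obtain ⟨a, b, c, d, Q, hdet, hQ, hP⟩ := h
  refine ⟨a, a * y + b, c, c * y + d, Q, ?_, hQ, fun x hx hPx => ?_⟩
  · intro h; apply hdet; linear_combination h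
  · convert hP (x + y) (by positivity) hPx using 2 <;> (push_cast; ring)

theorem PhiM_mul {R : (ℂ → Prop) → Prop} {P : ℝ → Prop} (h : PhiM R P) {y : ℝ} (hy : 0 < y) :
    PhiM R (fun x => P (x * y)) := by
  obtain ⟨a, b, c, d, Q, hdet, hQ, hP⟩ := h
  have hy' : (y : ℂ) ≠ 0 := by exact_mod_cast hy.ne'
  refine ⟨a * y, b, c * y, d, Q, ?_, hQ, fun x hx hPx => ?_⟩
  · intro h; apply hdet
    apply mul_left_cancel₀ hy'
    linear_combination h
  · convert hP (x * y) (by positivity) hPx using 2 <;> (push_cast; ring)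

theorem PhiM_div {R : (ℂ → Prop) → Prop} {P : ℝ → Prop} (h : PhiM R P) {y : ℝ} (hy : 0 < y) :
    PhiM R (fun x => P (x / y)) := by
  have h1 := PhiM_mul h (inv_pos.2 hy)
  simpa only [div_eq_mul_inv] using h1

theorem PhiM_div' {R : (ℂ → Prop) → Prop} {P : ℝ → Prop} (h : PhiM R P) {y : ℝ} (hy : 0 < y) :
    PhiM R (fun x => P (y / x)) := by
  obtain ⟨a, b, c, d, Q, hdet, hQ, hP⟩ := h
  have hy' : (y : ℂ) ≠ 0 := by exact_mod_cast hy.ne'
  refine ⟨b, a * y, d, c * y, Q, ?_, hQ, fun x hx hPx => ?_⟩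
  · intro h; apply hdet
    apply mul_left_cancel₀ hy'
    linear_combination -h
  · have hx' : (x : ℂ) ≠ 0 := by exact_mod_cast hx.ne'
    convert hP (y / x) (by positivity) hPx using 1
    have e1 : a * ((y / x : ℝ) : ℂ) + b = (b * x + a * y) / x := by
      push_cast; field_simp; ring
    have e2 : c * ((y / x : ℝ) : ℂ) + d = (d * x + c * y) / x := by
      push_cast; field_simp; ring
    rw [e1, e2, div_div_div_cancel_right₀ hx']

/-- each operation is one of `+`, `*`, `/` -/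
def Ari (f : ο → ℝ → ℝ → ℝ) : Prop :=
  ∀ o, f o = (fun x y => x + y) ∨ f o = (fun x y => x * y) ∨ f o = fun x y => x / y

theorem Ari.pos {f : ο → ℝ → ℝ → ℝ} (hf : Ari f) (o : ο) (x y : ℝ) (hx : 0 < x) (hy : 0 < y) :
    0 < f o x y := by
  rcases hf o with h | h | h <;> (rw [h]; positivity)

theorem PhiM_closed {f : ο → ℝ → ℝ → ℝ} (hf : Ari f) {v : σ → ℝ} (hv : ∀ s, 0 < v s)
    (R : (ℂ → Prop) → Prop) : ∀ P, PhiM R P → ∀ (o : ο) (t : Expr σ ο),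
      PhiM R (fun x => P (f o x (t.value f v))) ∧ PhiM R (fun x => P (f o (t.value f v) x)) := by
  intro P hP o t
  have hy : 0 < t.value f v := value_pos hf.pos hv t
  rcases hf o with h | h | h
  · rw [h]
    refine ⟨PhiM_add hP hy, ?_⟩
    have := PhiM_add hP hy
    simpa only [add_comm] using this
  · rw [h]
    refine ⟨PhiM_mul hP hy, ?_⟩
    have := PhiM_mul hP hy
    simpa only [mul_comm] using this
  · rw [h]
    exact ⟨PhiM_div hP hy, PhiM_div' hP hy⟩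

/-- the predicates an exponential of `x` is bad -/
def PhiE (R : (ℂ → Prop) → Prop) (P : ℝ → Prop) : Prop :=
  ∃ (a l : ℂ) (Q : ℂ → Prop), a ≠ 0 ∧ l ≠ 0 ∧ R Q ∧
    ∀ x : ℝ, 0 < x → P x → Q (a * Complex.exp (l * (x : ℂ)))

/-- each operation is one of `+`, `*` -/
def Semi (f : ο → ℝ → ℝ → ℝ) : Prop := ∀ o, f o = (fun x y => x + y) ∨ f o = (fun x y => x * y)

theorem Semi.ari {f : ο → ℝ → ℝ → ℝ} (hf : Semi f) : Ari f := fun o =>
  (hf o).elim Or.inl fun h => Or.inr (Or.inl h)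

theorem PhiE_closed {f : ο → ℝ → ℝ → ℝ} (hf : Semi f) {v : σ → ℝ} (hv : ∀ s, 0 < v s)
    (R : (ℂ → Prop) → Prop) : ∀ P, PhiE R P → ∀ (o : ο) (t : Expr σ ο),
      PhiE R (fun x => P (f o x (t.value f v))) ∧ PhiE R (fun x => P (f o (t.value f v) x)) := by
  have hadd : ∀ {P : ℝ → Prop}, PhiE R P → ∀ {y : ℝ}, 0 < y → PhiE R (fun x => P (x + y)) := by
    rintro P ⟨a, l, Q, ha, hl, hQ, hP⟩ y hy
    refine ⟨a * Complex.exp (l * y), l, Q, mul_ne_zero ha (Complex.exp_ne_zero _), hl, hQ,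
      fun x hx hPx => ?_⟩
    convert hP (x + y) (by positivity) hPx using 1
    rw [mul_assoc, ← Complex.exp_add]
    push_cast
    rw [mul_add, add_comm]
  have hmul : ∀ {P : ℝ → Prop}, PhiE R P → ∀ {y : ℝ}, 0 < y → PhiE R (fun x => P (x * y)) := by
    rintro P ⟨a, l, Q, ha, hl, hQ, hP⟩ y hy
    have hy' : (y : ℂ) ≠ 0 := by exact_mod_cast hy.ne'
    refine ⟨a, l * y, Q, ha, mul_ne_zero hl hy', hQ, fun x hx hPx => ?_⟩
    convert hP (x * y) (by positivity) hPx using 3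
    push_cast
    ring
  intro P hP o t
  have hy : 0 < t.value f v := value_pos hf.ari.pos hv t
  rcases hf o with h | h
  · rw [h]
    refine ⟨hadd hP hy, ?_⟩
    have := hadd hP hy
    simpa only [add_comm] using this
  · rw [h]
    refine ⟨hmul hP hy, ?_⟩
    have := hmul hP hy
    simpa only [mul_comm] using this

theorem pt_pos {θ : ℝ} (hθ : 0 < θ) (K h : ℕ) (i : Fin K → Fin (h + 1)) : 0 < pt θ K h i := by
  have h1 := comb_value (f := fun (o : Bool) (x y : ℝ) => if o then x + y else x * y)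
    (v := fun _ : Unit => θ) (p := true) (q := false) (by simp) (by simp) () h (lst i) (lst_le i)
  have h2 : 0 < (comb true false () h (lst i)).value
      (fun (o : Bool) (x y : ℝ) => if o then x + y else x * y) (fun _ : Unit => θ) := by
    apply value_pos
    · intro o x y hx hy
      rcases o <;> simp <;> positivity
    · intro _; exact hθ
  rw [h1] at h2
  unfold pt
  unfold lst at h2
  rw [pv_ofFn] at h2
  simpa using h2

/-- the bound for the pattern tends to zero -/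
theorem exists_h (N : ℕ) {ε : ℝ} (hε : 0 < ε) : ∃ h : ℕ,
    (2 * N + 8 : ℝ) / ((h : ℝ) + 1) ≤ ε ∧ 3 / ((h : ℝ) + 1) ≤ ε ∧
      (N + 2 * Nat.sqrt h + 2 : ℝ) / ((h : ℝ) + 1) ≤ ε := by
  obtain ⟨H, hH⟩ := exists_nat_gt ((2 * N + 10 : ℝ) / ε)
  have hH0 : (0 : ℝ) < H := lt_trans (by positivity) hH
  have hH1 : (1 : ℝ) ≤ H := by
    have : 0 < H := by exact_mod_cast hH0
    exact_mod_cast this
  rw [div_lt_iff₀ hε] at hH
  refine ⟨H * H, ?_, ?_, ?_⟩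
  · rw [div_le_iff₀ (by positivity)]
    push_cast
    nlinarith
  · rw [div_le_iff₀ (by positivity)]
    push_cast
    have : (0 : ℝ) ≤ N := by positivity
    nlinarith
  · rw [div_le_iff₀ (by positivity), Nat.sqrt_eq]
    push_cast
    have : (0 : ℝ) ≤ N := by positivity
    nlinarith

section

variable [Fintype σ] [Fintype ο] [DecidableEq σ] [DecidableEq ο]

theorem main_mob {f : ο → ℝ → ℝ → ℝ} (hf : Ari f) {v : σ → ℝ} (hv : ∀ s, 0 < v s)
    {p q : ο} (hp : f p = fun x y => x + y) (hq : f q = fun x y => x * y) (hpq : p ≠ q)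
    {s : σ} (hs : Transcendental ℚ (v s)) (N : ℕ) {ε : ℝ} (hε : 0 < ε) :
    ∃ n₀, ∀ n ≥ n₀, ∀ a b c d : ℂ, a * d ≠ b * c → ∀ V : Submodule QB ℂ,
      FiniteDimensional QB V → finrank QB V ≤ N →
      ∑ t ∈ ex σ ο n, ind ((a * ((t.value f v : ℝ) : ℂ) + b) /
        (c * ((t.value f v : ℝ) : ℂ) + d) ∈ Lt ⊔ V) ≤ ε * Tn σ ο n := by
  obtain ⟨h, hh1, -, -⟩ := exists_h N (half_pos hε)
  let R : (ℂ → Prop) → Prop := fun Q => ∃ V : Submodule QB ℂ, FiniteDimensional QB V ∧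
    finrank QB V ≤ N ∧ ∀ z, Q z → z ∈ Lt ⊔ V
  obtain ⟨n₀, hn₀⟩ := assemble hp hq hpq s (PhiM R) (PhiM_closed hf hv R) (2 * N + 4) h (by omega)
    ((2 * N + 8 : ℝ) / ((h : ℝ) + 1)) (by positivity) (by
      rintro P ⟨a, b, c, d, Q, hdet, ⟨V, hV, hVN, hQV⟩, hP⟩
      refine le_trans (Finset.sum_le_sum fun i _ => ind_mono fun hi => ?_)
        (base_mob hs hdet V hVN le_rfl)
      exact hQV _ (hP _ (pt_pos (hv s) _ _ i) hi)) (half_pos hε)
  refine ⟨n₀, fun n hn a b c d hdet V hV hVN => ?_⟩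
  refine (hn₀ n hn (fun x => (a * ((x : ℝ) : ℂ) + b) / (c * ((x : ℝ) : ℂ) + d) ∈ Lt ⊔ V)
    ⟨a, b, c, d, fun z => z ∈ Lt ⊔ V, hdet, ⟨V, hV, hVN, fun _ h => h⟩, fun _ _ h => h⟩).trans ?_
  apply mul_le_mul_of_nonneg_right _ (Tn_nonneg n)
  linarith

theorem main_log {f : ο → ℝ → ℝ → ℝ} (hf : Ari f) {v : σ → ℝ} (hv : ∀ s, 0 < v s)
    {p q : ο} (hp : f p = fun x y => x + y) (hq : f q = fun x y => x * y) (hpq : p ≠ q)
    {s : σ} (hs : Transcendental ℚ (v s)) {ε : ℝ} (hε : 0 < ε) :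
    ∃ n₀, ∀ n ≥ n₀, ∀ a b c d : ℂ, a * d ≠ b * c →
      ∑ t ∈ ex σ ο n, ind (∃ α : ℂ, IsAlgebraic ℚ α ∧ (a * ((t.value f v : ℝ) : ℂ) + b) /
        (c * ((t.value f v : ℝ) : ℂ) + d) = Complex.exp α) ≤ ε * Tn σ ο n := by
  obtain ⟨h, -, hh1, -⟩ := exists_h 0 (half_pos hε)
  let R : (ℂ → Prop) → Prop := fun Q => ∀ z, Q z → ∃ α : ℂ, IsAlgebraic ℚ α ∧ z = Complex.exp α
  obtain ⟨n₀, hn₀⟩ := assemble hp hq hpq s (PhiM R) (PhiM_closed hf hv R) 1 h le_rfl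
    (3 / ((h : ℝ) + 1)) (by positivity) (by
      rintro P ⟨a, b, c, d, Q, hdet, hQ, hP⟩
      refine le_trans (Finset.sum_le_sum fun i _ => ind_mono fun hi => ?_)
        (base_log hs hdet le_rfl)
      exact hQ _ (hP _ (pt_pos (hv s) _ _ i) hi)) (half_pos hε)
  refine ⟨n₀, fun n hn a b c d hdet => ?_⟩
  refine (hn₀ n hn (fun x => ∃ α : ℂ, IsAlgebraic ℚ α ∧
    (a * ((x : ℝ) : ℂ) + b) / (c * ((x : ℝ) : ℂ) + d) = Complex.exp α)
    ⟨a, b, c, d, fun z => ∃ α : ℂ, IsAlgebraic ℚ α ∧ z = Complex.exp α, hdet, fun _ h => h,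
      fun _ _ h => h⟩).trans ?_
  apply mul_le_mul_of_nonneg_right _ (Tn_nonneg n)
  linarith

theorem main_exp {f : ο → ℝ → ℝ → ℝ} (hf : Semi f) {v : σ → ℝ} (hv : ∀ s, 0 < v s)
    {p q : ο} (hp : f p = fun x y => x + y) (hq : f q = fun x y => x * y) (hpq : p ≠ q)
    {s : σ} (hs : Transcendental ℚ (v s)) (N : ℕ) {ε : ℝ} (hε : 0 < ε) :
    ∃ n₀, ∀ n ≥ n₀, ∀ a l : ℂ, a ≠ 0 → l ≠ 0 → ∀ V : Submodule QB ℂ,
      FiniteDimensional QB V → finrank QB V ≤ N →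
      ∑ t ∈ ex σ ο n, ind (a * Complex.exp (l * ((t.value f v : ℝ) : ℂ)) ∈ Lt ⊔ V) ≤
        ε * Tn σ ο n := by
  obtain ⟨h, -, -, hh1⟩ := exists_h N (half_pos hε)
  let R : (ℂ → Prop) → Prop := fun Q => ∃ V : Submodule QB ℂ, FiniteDimensional QB V ∧
    finrank QB V ≤ N ∧ ∀ z, Q z → z ∈ Lt ⊔ V
  obtain ⟨n₀, hn₀⟩ := assemble hp hq hpq s (PhiE R) (PhiE_closed hf hv R) 4 h (by omega)
    ((N + 2 * Nat.sqrt h + 2 : ℝ) / ((h : ℝ) + 1)) (by positivity) (by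
      rintro P ⟨a, l, Q, ha, hl, ⟨V, hV, hVN, hQV⟩, hP⟩
      refine le_trans (Finset.sum_le_sum fun i _ => ind_mono fun hi => ?_)
        (base_exp hs ha hl V hVN le_rfl)
      exact hQV _ (hP _ (pt_pos (hv s) _ _ i) hi)) (half_pos hε)
  refine ⟨n₀, fun n hn a l ha hl V hV hVN => ?_⟩
  refine (hn₀ n hn (fun x => a * Complex.exp (l * ((x : ℝ) : ℂ)) ∈ Lt ⊔ V)
    ⟨a, l, fun z => z ∈ Lt ⊔ V, ha, hl, ⟨V, hV, hVN, fun _ h => h⟩, fun _ _ h => h⟩).trans ?_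
  apply mul_le_mul_of_nonneg_right _ (Tn_nonneg n)
  linarith

theorem card_eq (n : ℕ) (Q : Expr σ ο → Prop) :
    (Nat.card {t : Expr σ ο // t.leaves = n + 1 ∧ Q t} : ℝ) = ∑ t ∈ ex σ ο n, ind (Q t) := by
  classical
  rw [Nat.subtype_card ((ex σ ο n).filter Q) (by
    intro t
    rw [Finset.mem_filter, mem_ex, t.leaves_eq, Nat.add_right_cancel_iff]), Finset.card_filter,
    Nat.cast_sum]
  refine Finset.sum_congr rfl fun t _ => ?_
  by_cases h : Q t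
  · rw [ind_pos h, if_pos h, Nat.cast_one]
  · rw [ind_neg h, if_neg h, Nat.cast_zero]

theorem card_all (n : ℕ) :
    (Nat.card {t : Expr σ ο // t.leaves = n + 1} : ℝ) = Tn σ ο n := by
  unfold Tn
  rw [Nat.subtype_card (ex σ ο n) (by
    intro t
    rw [mem_ex, t.leaves_eq, Nat.add_right_cancel_iff])]

end

end Pool.Agent.E8helper37.RX
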