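import Pool.Agent.E8helper37.RX.Expr

/-!
# Expressions with a fringe pattern
-/

set_option autoImplicit false

namespace Pool.Agent.E8helper37.RX

open Finset

/-- the indicator of a proposition -/
noncomputable def ind (p : Prop) : ℝ := @ite _ p (Classical.propDecidable p) 1 0

theorem ind_pos {p : Prop} (h : p) : ind p = 1 := if_pos h

theorem ind_neg {p : Prop} (h : ¬p) : ind p = 0 := if_neg h

theorem ind_nonneg (p : Prop) : 0 ≤ ind p := by
  by_cases h : p
  · rw [ind_pos h]; exact zero_le_one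
  · rw [ind_neg h]

theorem ind_le_one (p : Prop) : ind p ≤ 1 := by
  by_cases h : p
  · rw [ind_pos h]
  · rw [ind_neg h]; exact zero_le_one

theorem ind_mono {p q : Prop} (h : p → q) : ind p ≤ ind q := by
  by_cases hp : p
  · rw [ind_pos hp, ind_pos (h hp)]
  · rw [ind_neg hp]; exact ind_nonneg q

theorem ind_and (p q : Prop) : ind (p ∧ q) = ind p * ind q := by
  by_cases hp : p
  · by_cases hq : q
    · rw [ind_pos hp, ind_pos hq, ind_pos ⟨hp, hq⟩, one_mul]
    · rw [ind_neg hq, ind_neg (fun h => hq h.2), mul_zero]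
  · rw [ind_neg hp, ind_neg (fun h => hp h.1), zero_mul]

theorem ind_not (p : Prop) : ind (¬p) = 1 - ind p := by
  by_cases h : p
  · rw [ind_pos h, ind_neg (not_not.2 h), sub_self]
  · rw [ind_neg h, ind_pos h, sub_zero]

theorem ind_or (p q : Prop) : ind (p ∨ q) = ind p + ind (¬p) * ind q := by
  by_cases hp : p
  · rw [ind_pos hp, ind_pos (Or.inl hp), ind_neg (not_not.2 hp)]; ring
  · by_cases hq : q
    · rw [ind_neg hp, ind_pos (Or.inr hq), ind_pos hp, ind_pos hq]; ring
    · rw [ind_neg hp, ind_neg (not_or.2 ⟨hp, hq⟩), ind_neg hq]; ring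

variable {σ ο : Type}

/-- some subexpression belongs to the family `Fam` -/
def Has (Fam : Finset (Expr σ ο)) : Expr σ ο → Prop
  | .leaf s => Expr.leaf s ∈ Fam
  | .node o l r => Expr.node o l r ∈ Fam ∨ Has Fam l ∨ Has Fam r

theorem Has_le {Fam : Finset (Expr σ ο)} {m : ℕ} (hm : ∀ t ∈ Fam, t.nodes = m) (t : Expr σ ο) :
    Has Fam t → m ≤ t.nodes := by
  induction t with
  | leaf s => intro h; exact (hm _ h).ge
  | node o l r hl hr =>
    rintro (h | h | h)
    · exact (hm _ h).ge
    · have := hl h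
      simp only [Expr.nodes]; omega
    · have := hr h
      simp only [Expr.nodes]; omega

theorem Has_eq {Fam : Finset (Expr σ ο)} {m : ℕ} (hm : ∀ t ∈ Fam, t.nodes = m) (t : Expr σ ο)
    (ht : t.nodes = m) : Has Fam t ↔ t ∈ Fam := by
  rcases t with s | ⟨o, l, r⟩
  · exact Iff.rfl
  · constructor
    · rintro (h | h | h)
      · exact h
      · have := Has_le hm l h
        simp only [Expr.nodes] at ht; omega
      · have := Has_le hm r h
        simp only [Expr.nodes] at ht; omega
    · exact fun h => Or.inl h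

theorem Has_node {Fam : Finset (Expr σ ο)} {m : ℕ} (hm : ∀ t ∈ Fam, t.nodes = m) (o : ο)
    (l r : Expr σ ο) (ht : (Expr.node o l r).nodes ≠ m) :
    Has Fam (Expr.node o l r) ↔ Has Fam l ∨ Has Fam r := by
  constructor
  · rintro (h | h)
    · exact absurd (hm _ h) ht
    · exact h
  · exact fun h => Or.inr h

section

variable [Fintype σ] [Fintype ο] [DecidableEq σ] [DecidableEq ο]

/-- **The fringe lemma.** -/
theorem fringe {X : Type} {f : ο → X → X → X} {v : σ → X} {Fam : Finset (Expr σ ο)} {m : ℕ}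
    (hm : ∀ t ∈ Fam, t.nodes = m) (hm0 : 1 ≤ m) (Φ : (X → Prop) → Prop)
    (hΦ : ∀ P, Φ P → ∀ (o : ο) (t : Expr σ ο), Φ (fun x => P (f o x (t.value f v))) ∧
      Φ (fun x => P (f o (t.value f v) x))) (δ : ℝ) (hδ0 : 0 ≤ δ)
    (hδ : ∀ P, Φ P → ∑ t ∈ Fam, ind (P (t.value f v)) ≤ δ * Fam.card) (n : ℕ) :
    ∀ P, Φ P → ∑ t ∈ ex σ ο n, ind (Has Fam t ∧ P (t.value f v)) ≤
      δ * ∑ t ∈ ex σ ο n, ind (Has Fam t) := by
  classical
  induction n using Nat.strong_induction_on with
  | _ n ih =>
  intro P hP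
  by_cases hnm : n = m
  · subst hnm
    have hsub : Fam ⊆ ex σ ο n := fun t ht => (mem_ex t n).2 (hm t ht)
    have h1 : ∑ t ∈ ex σ ο n, ind (Has Fam t ∧ P (t.value f v)) =
        ∑ t ∈ Fam, ind (P (t.value f v)) := by
      symm
      rw [← Finset.sum_subset hsub]
      · refine Finset.sum_congr rfl fun t ht => ?_
        rw [ind_and, ind_pos ((Has_eq hm t (hm t ht)).2 ht), one_mul]
      · intro t ht htF
        rw [ind_neg]
        rintro ⟨h, -⟩
        exact htF ((Has_eq hm t ((mem_ex t n).1 ht)).1 h)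
    have h2 : ∑ t ∈ ex σ ο n, ind (Has Fam t) = Fam.card := by
      symm
      rw [← Finset.sum_subset hsub]
      · rw [Finset.sum_congr rfl fun t ht => ind_pos ((Has_eq hm t (hm t ht)).2 ht)]
        simp
      · intro t ht htF
        rw [ind_neg]
        intro h
        exact htF ((Has_eq hm t ((mem_ex t n).1 ht)).1 h)
    rw [h1, h2]
    exact hδ P hP
  · rcases n with _ | n
    · have h1 : ∀ t ∈ ex σ ο 0, ind (Has Fam t ∧ P (t.value f v)) = 0 := by
        intro t ht
        rw [ind_neg]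
        rintro ⟨h, -⟩
        have := Has_le hm t h
        rw [(mem_ex t 0).1 ht] at this
        omega
      rw [Finset.sum_congr rfl h1, Finset.sum_const_zero]
      exact mul_nonneg hδ0 (Finset.sum_nonneg fun t _ => ind_nonneg _)
    · rw [sum_ex_succ, sum_ex_succ, Finset.mul_sum]
      refine Finset.sum_le_sum fun p hp => ?_
      rw [HasAntidiagonal.mem_antidiagonal] at hp
      rw [Finset.mul_sum]
      refine Finset.sum_le_sum fun o _ => ?_
      have h1 : ∀ l ∈ ex σ ο p.1, ∀ r ∈ ex σ ο p.2, (Has Fam (Expr.node o l r) ↔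
          Has Fam l ∨ Has Fam r) := by
        intro l hl r hr
        rw [mem_ex] at hl hr
        apply Has_node hm
        simp only [Expr.nodes]
        omega
      have h2 : ∑ l ∈ ex σ ο p.1, ∑ r ∈ ex σ ο p.2,
          ind (Has Fam (Expr.node o l r) ∧ P ((Expr.node o l r).value f v)) =
          ∑ r ∈ ex σ ο p.2, ∑ l ∈ ex σ ο p.1,
            ind (Has Fam l ∧ P (f o (l.value f v) (r.value f v))) +
          ∑ l ∈ ex σ ο p.1, ind (¬ Has Fam l) * ∑ r ∈ ex σ ο p.2,
            ind (Has Fam r ∧ P (f o (l.value f v) (r.value f v))) := by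
        rw [Finset.sum_comm (s := ex σ ο p.2), ← Finset.sum_add_distrib]
        refine Finset.sum_congr rfl fun l hl => ?_
        rw [Finset.mul_sum, ← Finset.sum_add_distrib]
        refine Finset.sum_congr rfl fun r hr => ?_
        rw [ind_and, ind_and, ind_and]
        have h3 : ind (Has Fam (Expr.node o l r)) = ind (Has Fam l) +
            ind (¬ Has Fam l) * ind (Has Fam r) := by
          rw [← ind_or]
          exact congrArg ind (propext (h1 l hl r hr))
        rw [h3]
        simp only [Expr.value]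
        ring
      have h4 : ∑ l ∈ ex σ ο p.1, ∑ r ∈ ex σ ο p.2, ind (Has Fam (Expr.node o l r)) =
          ∑ r ∈ ex σ ο p.2, ∑ l ∈ ex σ ο p.1, ind (Has Fam l) +
          ∑ l ∈ ex σ ο p.1, ind (¬ Has Fam l) * ∑ r ∈ ex σ ο p.2, ind (Has Fam r) := by
        rw [Finset.sum_comm (s := ex σ ο p.2), ← Finset.sum_add_distrib]
        refine Finset.sum_congr rfl fun l hl => ?_
        rw [Finset.mul_sum, ← Finset.sum_add_distrib]
        refine Finset.sum_congr rfl fun r hr => ?_
        rw [← ind_or]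
        exact congrArg ind (propext (h1 l hl r hr))
      rw [h2, h4, mul_add]
      apply add_le_add
      · rw [Finset.mul_sum]
        refine Finset.sum_le_sum fun r _ => ?_
        exact ih p.1 (by omega) (fun x => P (f o x (r.value f v))) (hΦ P hP o r).1
      · rw [Finset.mul_sum]
        refine Finset.sum_le_sum fun l _ => ?_
        rw [mul_left_comm]
        exact mul_le_mul_of_nonneg_left
          (ih p.2 (by omega) (fun x => P (f o (l.value f v) x)) (hΦ P hP o l).2) (ind_nonneg _)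

/-- the number of expressions -/
noncomputable def Tn (σ ο : Type) [Fintype σ] [Fintype ο] [DecidableEq σ] [DecidableEq ο] (n : ℕ) : ℝ :=
  (ex σ ο n).card

/-- the number of the expressions which avoid the family -/
noncomputable def An (Fam : Finset (Expr σ ο)) (n : ℕ) : ℝ := ∑ t ∈ ex σ ο n, ind (¬ Has Fam t)

theorem An_nonneg (Fam : Finset (Expr σ ο)) (n : ℕ) : 0 ≤ An Fam n :=
  Finset.sum_nonneg fun t _ => ind_nonneg _

theorem An_le (Fam : Finset (Expr σ ο)) (n : ℕ) : An Fam n ≤ Tn σ ο n := by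
  unfold An Tn
  calc ∑ t ∈ ex σ ο n, ind (¬ Has Fam t) ≤ ∑ t ∈ ex σ ο n, (1 : ℝ) :=
        Finset.sum_le_sum fun t _ => ind_le_one _
    _ = _ := by simp

theorem Tn_zero : Tn σ ο 0 = Fintype.card σ := by
  unfold Tn
  have h := sum_ex_zero (σ := σ) (ο := ο) (fun _ => (1 : ℕ))
  simp only [Finset.sum_const, smul_eq_mul, mul_one, Finset.card_univ] at h
  exact_mod_cast h

theorem Tn_succ (n : ℕ) : Tn σ ο (n + 1) =
    Fintype.card ο * ∑ p ∈ antidiagonal n, Tn σ ο p.1 * Tn σ ο p.2 := by
  unfold Tn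
  have h := sum_ex_succ (σ := σ) (ο := ο) n (fun _ => (1 : ℝ))
  simp only [Finset.sum_const, nsmul_eq_mul, mul_one, Finset.card_univ] at h
  rw [h, Finset.mul_sum]

theorem An_succ_ne {Fam : Finset (Expr σ ο)} {m : ℕ} (hm : ∀ t ∈ Fam, t.nodes = m) (n : ℕ)
    (hn : n + 1 ≠ m) : An Fam (n + 1) =
    Fintype.card ο * ∑ p ∈ antidiagonal n, An Fam p.1 * An Fam p.2 := by
  unfold An
  rw [sum_ex_succ, Finset.mul_sum]
  refine Finset.sum_congr rfl fun p hp => ?_
  rw [HasAntidiagonal.mem_antidiagonal] at hp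
  have h1 : ∀ o : ο, ∑ l ∈ ex σ ο p.1, ∑ r ∈ ex σ ο p.2, ind (¬ Has Fam (Expr.node o l r)) =
      (∑ l ∈ ex σ ο p.1, ind (¬ Has Fam l)) * ∑ r ∈ ex σ ο p.2, ind (¬ Has Fam r) := by
    intro o
    rw [Finset.sum_mul_sum]
    refine Finset.sum_congr rfl fun l hl => Finset.sum_congr rfl fun r hr => ?_
    rw [← ind_and]
    rw [mem_ex] at hl hr
    rw [Has_node hm o l r (by simp only [Expr.nodes]; omega), not_or]
  rw [Finset.sum_congr rfl fun o _ => h1 o, Finset.sum_const, nsmul_eq_mul, Finset.card_univ]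

theorem An_succ_le {Fam : Finset (Expr σ ο)} {m : ℕ} (hm : ∀ t ∈ Fam, t.nodes = m) (n : ℕ)
    (hn : n + 1 = m) : An Fam (n + 1) + Fam.card ≤
    Fintype.card ο * ∑ p ∈ antidiagonal n, An Fam p.1 * An Fam p.2 := by
  have h1 : An Fam (n + 1) + Fam.card = Tn σ ο (n + 1) := by
    unfold An Tn
    have hsub : Fam ⊆ ex σ ο (n + 1) := fun t ht => (mem_ex t (n + 1)).2 (by rw [hm t ht, hn])
    have h2 : ∑ t ∈ ex σ ο (n + 1), ind (Has Fam t) = Fam.card := by
      symm
      rw [← Finset.sum_subset hsub]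
      · rw [Finset.sum_congr rfl fun t ht => ind_pos ((Has_eq hm t (hm t ht)).2 ht)]
        simp
      · intro t ht htF
        rw [ind_neg]
        intro h
        exact htF ((Has_eq hm t (by rw [(mem_ex t _).1 ht, hn])).1 h)
    rw [← h2, ← Finset.sum_add_distrib]
    have h3 : ∀ t ∈ ex σ ο (n + 1), ind (¬ Has Fam t) + ind (Has Fam t) = 1 := by
      intro t _
      rw [ind_not]; ring
    rw [Finset.sum_congr rfl h3]
    simp
  rw [h1, Tn_succ]
  apply mul_le_mul_of_nonneg_left _ (by positivity)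
  refine Finset.sum_le_sum fun p hp => ?_
  rw [HasAntidiagonal.mem_antidiagonal] at hp
  have h2 : ∀ k, k < m → An Fam k = Tn σ ο k := by
    intro k hk
    unfold An Tn
    have h3 : ∀ t ∈ ex σ ο k, ind (¬ Has Fam t) = 1 := by
      intro t ht
      apply ind_pos
      intro h
      have := Has_le hm t h
      rw [(mem_ex t k).1 ht] at this
      omega
    rw [Finset.sum_congr rfl h3]
    simp
  rw [h2 p.1 (by omega), h2 p.2 (by omega)]

end

end Pool.Agent.E8helper37.RX
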