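import Pool.Agent.E8helper37.RX.Main

/-!
# Polynomials of the value of an expression
-/

set_option autoImplicit false

namespace Pool.Agent.E8helper37.RX

open Finset Module Polynomial
open Pool.Agent.H301R2.SSE (QB mem_QB Lt Lt_alg Lt_log)

variable {σ ο : Type}

/-- divided differences: more than `D` values of a polynomial of degree `D` at `x + ν n` in a space
over the algebraic numbers give the leading coefficient -/
theorem lead_mem (W : Submodule QB ℂ) (F : Polynomial ℂ) {ν x : ℂ} (hν : ν ≠ 0) (I : Finset ℕ)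
    (hI : ∀ n ∈ I, F.eval (x + ν * (n : ℂ)) ∈ W) (hc : F.natDegree < I.card) (hF : F ≠ 0) :
    F.leadingCoeff * ν ^ F.natDegree ∈ W := by
  classical
  obtain ⟨J, hJI, hJ⟩ := Finset.exists_subset_card_eq (show F.natDegree + 1 ≤ I.card by omega)
  set G : Polynomial ℂ := F.comp (C ν * X + C x) with hG
  have hlin : (C ν * X + C x : Polynomial ℂ).natDegree = 1 := natDegree_linear hν
  have hGd : G.natDegree = F.natDegree := by
    rw [hG, natDegree_comp, hlin, mul_one]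
  have hGl : G.leadingCoeff = F.leadingCoeff * ν ^ F.natDegree := by
    rw [hG, leadingCoeff_comp (by rw [hlin]; exact one_ne_zero), leadingCoeff_linear hν]
  have hG0 : G ≠ 0 := by
    intro h
    rw [h, leadingCoeff_zero] at hGl
    exact mul_ne_zero (leadingCoeff_ne_zero.2 hF) (pow_ne_zero _ hν) hGl.symm
  have h1 := Lagrange.leadingCoeff_eq_sum (s := J) (v := fun n : ℕ => (n : ℂ)) (P := G)
    (fun a _ b _ h => Nat.cast_injective h) (by
      rw [hJ, degree_eq_natDegree hG0, hGd]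
      push_cast
      rfl)
  rw [← hGl, h1]
  refine W.sum_mem fun n hn => ?_
  have h2 := W.smul_mem ((∏ j ∈ J.erase n, ((n : QB) - (j : QB)))⁻¹) (hI n (hJI hn))
  have h3 : ((∏ j ∈ J.erase n, ((n : QB) - (j : QB)))⁻¹ : QB) • F.eval (x + ν * (n : ℂ)) =
      G.eval (n : ℂ) / ∏ j ∈ J.erase n, ((n : ℂ) - (j : ℂ)) := by
    rw [Algebra.smul_def, map_inv₀, map_prod, hG, eval_comp]
    simp only [map_sub, map_natCast, eval_add, eval_mul, eval_C, eval_X]
    rw [div_eq_inv_mul, add_comm x]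
  rw [h3] at h2
  exact h2

/-- few bad values of a polynomial -/
theorem base_poly {θ : ℝ} (hθ : Transcendental ℚ θ) (F : Polynomial ℂ) {D : ℕ}
    (h1 : 1 ≤ F.natDegree) (hD : F.natDegree ≤ D) (V : Submodule QB ℂ)
    [FiniteDimensional QB V] {N K h : ℕ} (hV : finrank QB V ≤ N) (hK : 2 * N + 4 ≤ K) :
    ∑ i : Fin K → Fin (h + 1), ind (F.eval (((pt θ K h i : ℝ) : ℂ)) ∈ Lt ⊔ V) ≤
      ((D : ℝ) / ((h : ℝ) + 1)) * ((h : ℝ) + 1) ^ K := by
  have hμ := mu_ne hθ
  have hθC := trC hθ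
  have hF : F ≠ 0 := by
    rintro rfl
    rw [natDegree_zero] at h1
    omega
  have hθD : Transcendental ℚ ((θ : ℂ) ^ F.natDegree) := by
    intro h
    exact hθC (IsAlgebraic.of_pow (by omega) h)
  obtain ⟨k, hk⟩ := exists_power hθD
    (κ := F.leadingCoeff * ((θ * (θ - 1) : ℝ) : ℂ) ^ F.natDegree)
    (mul_ne_zero (leadingCoeff_ne_zero.2 hF) (pow_ne_zero _ hμ)) V (K := K) (by omega)
  apply count_coord k
  intro i
  apply sum_ind_le
  intro I hI
  have h2 : I.card ≤ F.natDegree := by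
    by_contra hcon
    push Not at hcon
    apply hk
    have h3 := lead_mem (Lt ⊔ V) F (ν := ((θ * (θ - 1) : ℝ) : ℂ) * (θ : ℂ) ^ (k : ℕ))
      (x := ((pt θ K h (Function.update i k 0) : ℝ) : ℂ))
      (mul_ne_zero hμ (pow_ne_zero _ (tr_ne_zero hθC))) I (by
        intro n hn
        obtain ⟨hn1, hn2⟩ := hI n hn
        convert hn2 using 2
        rw [pt_update θ i k ⟨n, hn1⟩]
        push_cast
        ring) hcon hF
    convert h3 using 1
    rw [mul_pow, ← pow_mul, ← pow_mul, mul_comm F.natDegree]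
    ring
  have h3 : (I.card : ℝ) ≤ F.natDegree := by exact_mod_cast h2
  have h4 : (F.natDegree : ℝ) ≤ D := by exact_mod_cast hD
  linarith

/-- the predicates a polynomial of `x` is bad -/
def PhiP (D : ℕ) (R : (ℂ → Prop) → Prop) (P : ℝ → Prop) : Prop :=
  ∃ (F : Polynomial ℂ) (Q : ℂ → Prop), 1 ≤ F.natDegree ∧ F.natDegree ≤ D ∧ R Q ∧
    ∀ x : ℝ, 0 < x → P x → Q (F.eval (x : ℂ))

theorem PhiP_closed (D : ℕ) {f : ο → ℝ → ℝ → ℝ} (hf : Semi f) {v : σ → ℝ} (hv : ∀ s, 0 < v s)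
    (R : (ℂ → Prop) → Prop) : ∀ P, PhiP D R P → ∀ (o : ο) (t : Expr σ ο),
      PhiP D R (fun x => P (f o x (t.value f v))) ∧
        PhiP D R (fun x => P (f o (t.value f v) x)) := by
  have hadd : ∀ {P : ℝ → Prop}, PhiP D R P → ∀ {y : ℝ}, 0 < y → PhiP D R (fun x => P (x + y)) := by
    rintro P ⟨F, Q, h1, hD, hQ, hP⟩ y hy
    refine ⟨F.comp (X + C (y : ℂ)), Q, ?_, ?_, hQ, fun x hx hPx => ?_⟩
    · rw [natDegree_comp, natDegree_X_add_C, mul_one]; exact h1
    · rw [natDegree_comp, natDegree_X_add_C, mul_one]; exact hD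
    · convert hP (x + y) (by positivity) hPx using 1
      rw [eval_comp]
      push_cast
      simp
  have hmul : ∀ {P : ℝ → Prop}, PhiP D R P → ∀ {y : ℝ}, 0 < y → PhiP D R (fun x => P (x * y)) := by
    rintro P ⟨F, Q, h1, hD, hQ, hP⟩ y hy
    have hy' : (y : ℂ) ≠ 0 := by exact_mod_cast hy.ne'
    refine ⟨F.comp (C (y : ℂ) * X), Q, ?_, ?_, hQ, fun x hx hPx => ?_⟩
    · rw [natDegree_comp, natDegree_C_mul_X _ hy', mul_one]; exact h1
    · rw [natDegree_comp, natDegree_C_mul_X _ hy', mul_one]; exact hD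
    · convert hP (x * y) (by positivity) hPx using 1
      rw [eval_comp, eval_mul, eval_C, eval_X, mul_comm]
      push_cast
      rfl
  intro P hP o t
  have hy : 0 < t.value f v := value_pos hf.ari.pos hv t
  rcases hf o with h | h
  · rw [h]
    refine ⟨hadd hP hy, ?_⟩
    have := hadd hP hy
    simpa only [add_comm] using this
  · rw [h]
    refine ⟨hmul hP hy, ?_⟩
    have := hmul hP hy
    simpa only [mul_comm] using this

section

variable [Fintype σ] [Fintype ο] [DecidableEq σ] [DecidableEq ο]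

theorem main_poly {f : ο → ℝ → ℝ → ℝ} (hf : Semi f) {v : σ → ℝ} (hv : ∀ s, 0 < v s)
    {p q : ο} (hp : f p = fun x y => x + y) (hq : f q = fun x y => x * y) (hpq : p ≠ q)
    {s : σ} (hs : Transcendental ℚ (v s)) (N D : ℕ) {ε : ℝ} (hε : 0 < ε) :
    ∃ n₀, ∀ n ≥ n₀, ∀ F : Polynomial ℂ, 1 ≤ F.natDegree → F.natDegree ≤ D →
      ∀ V : Submodule QB ℂ, FiniteDimensional QB V → finrank QB V ≤ N →
      ∑ t ∈ ex σ ο n, ind (F.eval (((t.value f v : ℝ) : ℂ)) ∈ Lt ⊔ V) ≤ ε * Tn σ ο n := by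
  obtain ⟨h, hh1, -, -⟩ := exists_h D (half_pos hε)
  have hh2 : (D : ℝ) / ((h : ℝ) + 1) ≤ ε / 2 := by
    refine le_trans ?_ hh1
    apply div_le_div_of_nonneg_right _ (by positivity)
    have : (0 : ℝ) ≤ D := by positivity
    linarith
  let R : (ℂ → Prop) → Prop := fun Q => ∃ V : Submodule QB ℂ, FiniteDimensional QB V ∧
    finrank QB V ≤ N ∧ ∀ z, Q z → z ∈ Lt ⊔ V
  obtain ⟨n₀, hn₀⟩ := assemble hp hq hpq s (PhiP D R) (PhiP_closed D hf hv R) (2 * N + 4) h
    (by omega) ((D : ℝ) / ((h : ℝ) + 1)) (by positivity) (by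
      rintro P ⟨F, Q, h1, hD, ⟨V, hV, hVN, hQV⟩, hP⟩
      refine le_trans (Finset.sum_le_sum fun i _ => ind_mono fun hi => ?_)
        (base_poly hs F h1 hD V hVN le_rfl)
      exact hQV _ (hP _ (pt_pos (hv s) _ _ i) hi)) (half_pos hε)
  refine ⟨n₀, fun n hn F h1 hD V hV hVN => ?_⟩
  refine (hn₀ n hn (fun x => F.eval ((x : ℝ) : ℂ) ∈ Lt ⊔ V)
    ⟨F, fun z => z ∈ Lt ⊔ V, h1, hD, ⟨V, hV, hVN, fun _ h => h⟩, fun _ _ h => h⟩).trans ?_
  apply mul_le_mul_of_nonneg_right _ (Tn_nonneg n)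
  linarith

end

end Pool.Agent.E8helper37.RX
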